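import Mathlib

/-!
Commuting germs at `0`: if `h₁ h₂ = 2^a h₂ h₁` near `0` for increasing germs commuting with
`t ↦ t/2` then `a ≤ 0`.
-/

set_option autoImplicit false

namespace Q187.FInt

open Filter Topology

theorem tendsto_zpow_mul (c : ℤ) : Tendsto (fun t : ℝ => (2 : ℝ) ^ c * t) (𝓝[>] 0) (𝓝[>] 0) := by
  have hc : (0 : ℝ) < 2 ^ c := by positivity
  rw [tendsto_nhdsWithin_iff]
  constructor
  · have : Tendsto (fun t : ℝ => (2 : ℝ) ^ c * t) (𝓝 0) (𝓝 ((2 : ℝ) ^ c * 0)) :=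
      (continuous_const.mul continuous_id).tendsto 0
    rw [mul_zero] at this
    exact this.mono_left nhdsWithin_le_nhds
  · filter_upwards [self_mem_nhdsWithin] with t ht
    exact mul_pos hc ht

/-- scaling property of a germ -/
def Sc (h : ℝ → ℝ) : Prop := ∀ c : ℤ, ∀ᶠ t in 𝓝[>] (0 : ℝ), h ((2 : ℝ) ^ c * t) = (2 : ℝ) ^ c * h t

theorem sc_of_half {h : ℝ → ℝ} (hS : ∀ᶠ t in 𝓝[>] (0 : ℝ), h (t / 2) = h t / 2) : Sc h := by
  have h2 : ∀ᶠ t in 𝓝[>] (0 : ℝ), h (2 * t) = 2 * h t := by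
    have h3 := (tendsto_zpow_mul 1).eventually hS
    filter_upwards [h3] with t ht
    rw [zpow_one] at ht
    have e : 2 * t / 2 = t := by ring
    rw [e] at ht
    linarith
  have h2' : ∀ᶠ t in 𝓝[>] (0 : ℝ), h ((1 / 2) * t) = (1 / 2) * h t := by
    filter_upwards [hS] with t ht
    have e : (1 / 2) * t = t / 2 := by ring
    rw [e, ht]; ring
  intro c
  induction c using Int.induction_on with
  | zero => exact Eventually.of_forall fun t => by simp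
  | succ n ih =>
    filter_upwards [ih, (tendsto_zpow_mul n).eventually h2] with t h4 h5
    have e : (2 : ℝ) ^ ((n : ℤ) + 1) = 2 * 2 ^ (n : ℤ) := by
      rw [zpow_add₀ (by norm_num), zpow_one]; ring
    rw [e, mul_assoc, h5, h4]; ring
  | pred n ih =>
    filter_upwards [ih, (tendsto_zpow_mul (-n)).eventually h2'] with t h4 h5
    have e : (2 : ℝ) ^ (-(n : ℤ) - 1) = (1 / 2) * 2 ^ (-(n : ℤ)) := by
      rw [zpow_sub₀ (by norm_num), zpow_one]; ring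
    rw [e, mul_assoc, h5, h4]; ring

theorem Sc.iterate {h : ℝ → ℝ} (hS : Sc h) (hT : Tendsto h (𝓝[>] 0) (𝓝[>] 0)) (m : ℕ) :
    Sc (h^[m]) := by
  induction m with
  | zero => intro c; exact Eventually.of_forall fun t => rfl
  | succ m ih =>
    intro c
    filter_upwards [hS c, hT.eventually (ih c)] with t h1 h2
    rw [Function.iterate_succ_apply, h1, h2, Function.iterate_succ_apply]

theorem bound_lemma {h : ℝ → ℝ} (hpos : ∀ x : ℝ, 0 < x → x < 1 → 0 < h x)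
    (hmono : ∀ x y : ℝ, 0 < x → x ≤ y → y < 1 → h x ≤ h y)
    (hS : ∀ᶠ t in 𝓝[>] (0 : ℝ), h (t / 2) = h t / 2) :
    ∃ C : ℕ, ∀ᶠ t in 𝓝[>] (0 : ℝ), (2 : ℝ) ^ (-(C : ℤ)) * t ≤ h t ∧ h t ≤ (2 : ℝ) ^ (C : ℤ) * t := by
  obtain ⟨u, hu0, hu⟩ := mem_nhdsGT_iff_exists_Ioo_subset.1 hS
  rw [Set.mem_Ioi] at hu0
  obtain ⟨t0, ht0, ht0u⟩ := exists_between (show 0 < min u 1 from lt_min hu0 one_pos)
  have ht01 : t0 < 1 := ht0u.trans_le (min_le_right _ _)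
  have ht0u' : t0 < u := ht0u.trans_le (min_le_left _ _)
  have hh0 : 0 < h t0 := hpos t0 ht0 ht01
  have hpow : ∀ n : ℕ, h (t0 / 2 ^ n) = h t0 / 2 ^ n := by
    intro n
    induction n with
    | zero => simp
    | succ n ih =>
      have e : t0 / 2 ^ (n + 1) = t0 / 2 ^ n / 2 := by rw [pow_succ]; field_simp
      have hmem : t0 / 2 ^ n ∈ Set.Ioo 0 u := by
        refine ⟨by positivity, lt_of_le_of_lt ?_ ht0u'⟩
        exact div_le_self ht0.le (one_le_pow₀ (by norm_num))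
      have h1 : h (t0 / 2 ^ n / 2) = h (t0 / 2 ^ n) / 2 := hu hmem
      rw [e, h1, ih, pow_succ]; field_simp
  obtain ⟨C1, hC1⟩ := pow_unbounded_of_one_lt (2 * h t0 / t0) (show (1 : ℝ) < 2 by norm_num)
  obtain ⟨C2, hC2⟩ := pow_unbounded_of_one_lt (2 * t0 / h t0) (show (1 : ℝ) < 2 by norm_num)
  refine ⟨max C1 C2, ?_⟩
  have hA : 2 * h t0 / t0 ≤ 2 ^ (max C1 C2) :=
    hC1.le.trans (pow_le_pow_right₀ (by norm_num) (le_max_left _ _))
  have hB : 2 * t0 / h t0 ≤ 2 ^ (max C1 C2) :=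
    hC2.le.trans (pow_le_pow_right₀ (by norm_num) (le_max_right _ _))
  have hmem : Set.Ioo 0 t0 ∈ 𝓝[>] (0 : ℝ) := Ioo_mem_nhdsGT ht0
  filter_upwards [hmem] with t ht
  have htp := ht.1
  obtain ⟨n, hn1, hn2⟩ := exists_nat_pow_near_of_lt_one (x := t / t0) (y := (1 / 2 : ℝ))
    (by positivity) (by rw [div_le_one ht0]; exact ht.2.le) (by norm_num) (by norm_num)
  have hp : (0 : ℝ) < 2 ^ n := by positivity
  have e1 : ((1 : ℝ) / 2) ^ n = 1 / 2 ^ n := by rw [one_div, inv_pow, one_div]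
  have e2 : ((1 : ℝ) / 2) ^ (n + 1) = 1 / 2 ^ (n + 1) := by rw [one_div, inv_pow, one_div]
  rw [e2, lt_div_iff₀ ht0] at hn1
  rw [e1, div_le_iff₀ ht0] at hn2
  have hn1' : t0 / 2 ^ (n + 1) < t := by
    have : 1 / 2 ^ (n + 1) * t0 = t0 / 2 ^ (n + 1) := by ring
    rwa [this] at hn1
  have hn2' : t ≤ t0 / 2 ^ n := by
    have : 1 / 2 ^ n * t0 = t0 / 2 ^ n := by ring
    rwa [this] at hn2
  have hle1 : h t ≤ h t0 / 2 ^ n := by
    rw [← hpow n]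
    refine hmono _ _ htp hn2' (lt_of_le_of_lt ?_ ht01)
    exact div_le_self ht0.le (one_le_pow₀ (by norm_num))
  have hle2 : h t0 / 2 ^ (n + 1) ≤ h t := by
    rw [← hpow (n + 1)]
    exact hmono _ _ (by positivity) hn1'.le (ht.2.trans ht01)
  have hCp : (0 : ℝ) < 2 ^ (max C1 C2) := by positivity
  constructor
  · rw [zpow_neg, zpow_natCast]
    refine le_trans ?_ hle2
    -- 2^-C t ≤ h t0 / 2^(n+1)
    have h1 : 2 * t0 ≤ 2 ^ (max C1 C2) * h t0 := by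
      rw [div_le_iff₀ hh0] at hB; exact hB
    have h2 : t * 2 ^ n ≤ t0 := by rw [le_div_iff₀ hp] at hn2'; exact hn2'
    rw [le_div_iff₀ (by positivity), inv_mul_eq_div, div_mul_eq_mul_div, div_le_iff₀ hCp, pow_succ]
    nlinarith
  · rw [zpow_natCast]
    refine hle1.trans ?_
    have h1 : 2 * h t0 ≤ 2 ^ (max C1 C2) * t0 := by
      rw [div_le_iff₀ ht0] at hA; exact hA
    have h2 : t0 < t * (2 ^ n * 2) := by
      rw [pow_succ, div_lt_iff₀ (by positivity)] at hn1'; exact hn1'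
    rw [div_le_iff₀ hp]
    nlinarith

theorem germ_lemma {h1 h2 : ℝ → ℝ}
    (hm1 : ∀ x : ℝ, 0 < x → x < 1 → 0 < h1 x ∧ h1 x < 1)
    (hm2 : ∀ x : ℝ, 0 < x → x < 1 → 0 < h2 x ∧ h2 x < 1)
    (hmono1 : ∀ x y : ℝ, 0 < x → x ≤ y → y < 1 → h1 x ≤ h1 y)
    (hmono2 : ∀ x y : ℝ, 0 < x → x ≤ y → y < 1 → h2 x ≤ h2 y)
    (hT1 : Tendsto h1 (𝓝[>] 0) (𝓝[>] 0)) (hT2 : Tendsto h2 (𝓝[>] 0) (𝓝[>] 0))
    (hS1 : ∀ᶠ t in 𝓝[>] (0 : ℝ), h1 (t / 2) = h1 t / 2)
    (hS2 : ∀ᶠ t in 𝓝[>] (0 : ℝ), h2 (t / 2) = h2 t / 2)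
    {a : ℤ} (hR : ∀ᶠ t in 𝓝[>] (0 : ℝ), h1 (h2 t) = (2 : ℝ) ^ a * h2 (h1 t)) : a ≤ 0 := by
  have hSc2 : ∀ m, Sc (h2^[m]) := fun m => (sc_of_half hS2).iterate hT2 m
  have hTi : ∀ m, Tendsto (h2^[m]) (𝓝[>] 0) (𝓝[>] 0) := fun m => hT2.iterate m
  have hrel : ∀ m : ℕ, ∀ᶠ t in 𝓝[>] (0 : ℝ), h1 (h2^[m] t) = (2 : ℝ) ^ ((m : ℤ) * a) * h2^[m] (h1 t) := by
    intro m
    induction m with
    | zero => exact Eventually.of_forall fun t => by simp
    | succ m ih =>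
      filter_upwards [hT2.eventually ih, hR, (hT2.comp hT1).eventually (hSc2 m a)] with t e1 e2 e3
      simp only [Function.comp] at e3
      rw [Function.iterate_succ_apply, e1, e2, e3, Function.iterate_succ_apply, ← mul_assoc,
        ← zpow_add₀ (by norm_num : (2 : ℝ) ≠ 0)]
      congr 2
      push_cast; ring
  obtain ⟨C, hC⟩ := bound_lemma (fun x h h' => (hm1 x h h').1) hmono1 hS1
  have himap : ∀ m : ℕ, ∀ x : ℝ, 0 < x → x < 1 → 0 < h2^[m] x ∧ h2^[m] x < 1 := by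
    intro m
    induction m with
    | zero => intro x h h'; exact ⟨h, h'⟩
    | succ m ih =>
      intro x h h'
      rw [Function.iterate_succ_apply]
      exact ih _ (hm2 x h h').1 (hm2 x h h').2
  have himono : ∀ m : ℕ, ∀ x y : ℝ, 0 < x → x ≤ y → y < 1 → h2^[m] x ≤ h2^[m] y := by
    intro m
    induction m with
    | zero => intro x y _ h _; exact h
    | succ m ih =>
      intro x y h h' h''
      rw [Function.iterate_succ_apply, Function.iterate_succ_apply]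
      exact ih _ _ (hm2 x h (h'.trans_lt h'')).1 (hmono2 x y h h' h'') (hm2 y (h.trans_le h') h'').2
  have hkey : ∀ m : ℕ, (m : ℤ) * a ≤ 2 * C := by
    intro m
    have hsm : Set.Ioo (0 : ℝ) 1 ∈ 𝓝[>] (0 : ℝ) := Ioo_mem_nhdsGT one_pos
    obtain ⟨t, ht1, ht2, ht3, ht4, ht5⟩ := ((hrel m).and ((hTi m).eventually hC |>.and
      (hC.and ((hSc2 m (-(C : ℤ))).and hsm)))).exists
    have hb1 := ht2.2
    have hb2 := ht3.1
    have hpos2 : (0 : ℝ) < 2 ^ (-(C : ℤ)) * t := mul_pos (by positivity) ht5.1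
    have h6 : h2^[m] ((2 : ℝ) ^ (-(C : ℤ)) * t) ≤ h2^[m] (h1 t) :=
      himono m _ _ hpos2 hb2 (hm1 t ht5.1 ht5.2).2
    rw [ht4] at h6
    rw [ht1] at hb1
    have hX := (himap m t ht5.1 ht5.2).1
    have hma : (0 : ℝ) < 2 ^ ((m : ℤ) * a) := by positivity
    have h7 : (2 : ℝ) ^ ((m : ℤ) * a) * ((2 : ℝ) ^ (-(C : ℤ)) * h2^[m] t) ≤
        (2 : ℝ) ^ (C : ℤ) * h2^[m] t :=
      (mul_le_mul_of_nonneg_left h6 hma.le).trans hb1
    rw [← mul_assoc] at h7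
    have h8 := le_of_mul_le_mul_right h7 hX
    rw [← zpow_add₀ (by norm_num : (2 : ℝ) ≠ 0)] at h8
    have h9 := (zpow_le_zpow_iff_right₀ (by norm_num : (1 : ℝ) < 2)).1 h8
    linarith
  by_contra hc
  push Not at hc
  have := hkey (2 * C + 1)
  push_cast at this
  nlinarith

end Q187.FInt
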