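import Mathlib
import Pool.Agent.Helper283.ThV.PLBase

/-!
Thompson's group `F` acting on the line (`Sup 0 1`): bumps, transitivity on dyadic points,
centralizers of rigid stabilizers.
-/

set_option autoImplicit false

namespace Q187.FInt

open Pool.Agent.Helper283.PL
open scoped commutatorElement

/-- Thompson's group `F`, as permutations of the line supported in `[0,1]`. -/
abbrev FF : Type := ↥(Sup 0 1)

theorem smul_eq (f : FF) (x : ℝ) : f • x = f.1 x := rfl

theorem ffext {f g : FF} (h : ∀ x : ℝ, f • x = g • x) : f = g :=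
  Subtype.ext (Equiv.ext h)

theorem cont (f : FF) : Continuous (fun x : ℝ => f • x) := PLf.cont f.2.1.2

theorem smul_lt (f : FF) {x y : ℝ} : f • x < f • y ↔ x < y := f.2.1.1.lt_iff_lt

theorem smul_le (f : FF) {x y : ℝ} : f • x ≤ f • y ↔ x ≤ y := f.2.1.1.le_iff_le

theorem le0 (f : FF) {x : ℝ} (h : x ≤ 0) : f • x = x := f.2.2 x (Or.inl h)

theorem ge1 (f : FF) {x : ℝ} (h : 1 ≤ x) : f • x = x := f.2.2 x (Or.inr h)

theorem smul_pos' (f : FF) {x : ℝ} : 0 < f • x ↔ 0 < x := by
  have := smul_lt f (x := 0) (y := x)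
  rwa [le0 f le_rfl] at this

theorem smul_lt_one' (f : FF) {x : ℝ} : f • x < 1 ↔ x < 1 := by
  have := smul_lt f (x := x) (y := 1)
  rwa [ge1 f le_rfl] at this

/-- the subgroup of elements supported in `(u, v)` -/
def L (u v : ℝ) : Subgroup FF where
  carrier := {f | ∀ x : ℝ, (x ≤ u ∨ v ≤ x) → f • x = x}
  mul_mem' := fun {a b} ha hb x hx => by rw [mul_smul, hb x hx, ha x hx]
  one_mem' := fun x _ => one_smul _ x
  inv_mem' := fun {a} ha x hx => by
    rw [inv_smul_eq_iff]; exact (ha x hx).symm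

theorem mem_L {u v : ℝ} {f : FF} : f ∈ L u v ↔ ∀ x : ℝ, (x ≤ u ∨ v ≤ x) → f • x = x := Iff.rfl

theorem L_mono {u v u' v' : ℝ} (hu : u' ≤ u) (hv : v ≤ v') : L u v ≤ L u' v' := by
  intro f hf x hx
  rcases hx with hx | hx
  · exact hf x (Or.inl (hx.trans hu))
  · exact hf x (Or.inr (hv.trans hx))

/-- elements of `L u v` preserve `(u,v)` -/
theorem L_maps {u v : ℝ} {f : FF} (hf : f ∈ L u v) {x : ℝ} : (u < f • x ∧ f • x < v) ↔ (u < x ∧ x < v) := by
  have h1 : ∀ y, ¬ (u < y ∧ y < v) ↔ (y ≤ u ∨ v ≤ y) := by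
    intro y; rw [not_and_or, not_lt, not_lt]
  constructor
  · intro h
    by_contra hc
    rw [hf x ((h1 x).1 hc)] at h
    exact hc h
  · intro h
    by_contra hc
    have h2 := (h1 _).1 hc
    have h3 := inv_mem hf _ h2
    rw [inv_smul_smul] at h3
    rw [← h3] at hc
    exact hc h

/-- moving dyadic points by elements with small support -/
theorem exists_move {c x y d : ℝ} (hc0 : 0 ≤ c) (hd1 : d ≤ 1) (hc : Dy c) (hx : Dy x) (hy : Dy y)
    (hd : Dy d) (hcx : c < x) (hxd : x < d) (hcy : c < y) (hyd : y < d) :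
    ∃ g : FF, g ∈ L c d ∧ g • x = y := by
  obtain ⟨e1, he1, h1a, h1b⟩ := PLH_interp hc hx hc hy hcx hcy
  obtain ⟨e2, he2, h2a, h2b⟩ := PLH_interp hx hd hy hd hxd hyd
  obtain ⟨e3, he3, h3a, h3b⟩ := PLH_glue he1 he2 hx (by rw [h1b, h2a])
  obtain ⟨e4, he4, h4a, h4b⟩ := PLH_glue PLH.one_mem he3 hc (by
    rw [h3a c hcx.le, h1a]; rfl)
  obtain ⟨e5, he5, h5a, h5b⟩ := PLH_glue he4 PLH.one_mem hd (by
    rw [h4b d (hcx.trans hxd).le, h3b d hxd.le, h2b]; rfl)
  have hout : ∀ t, t ≤ c ∨ d ≤ t → e5 t = t := by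
    intro t ht
    rcases ht with ht | ht
    · rw [h5a t (ht.trans (hcx.trans hxd).le), h4a t ht]; rfl
    · rw [h5b t ht]; rfl
  refine ⟨⟨e5, he5, fun t ht => hout t ?_⟩, fun t ht => hout t ht, ?_⟩
  · rcases ht with ht | ht
    · exact Or.inl (ht.trans hc0)
    · exact Or.inr (hd1.trans ht)
  · change e5 x = y
    rw [h5a x hxd.le, h4b x hcx.le, h3a x le_rfl, h1b]

/-- bumps -/
theorem exists_bump {u v s : ℝ} (hu : 0 ≤ u) (hv : v ≤ 1) (h1 : u < s) (h2 : s < v) :
    ∃ g : FF, g ∈ L u v ∧ s < g • s := by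
  obtain ⟨c, hc, huc, hcs⟩ := Dy.exists_between h1
  obtain ⟨x, hx, hcx, hxs⟩ := Dy.exists_between hcs
  obtain ⟨d, hd, hsd, hdv⟩ := Dy.exists_between h2
  obtain ⟨y, hy, hsy, hyd⟩ := Dy.exists_between hsd
  obtain ⟨g, hg, hgx⟩ := exists_move (hu.trans huc.le) (hdv.le.trans hv) hc hx hy hd hcx
    (hxs.trans hsd) (hcx.trans (hxs.trans hsy)) hyd
  refine ⟨g, L_mono huc.le hdv.le hg, ?_⟩
  have := (smul_lt g).2 hxs
  rw [hgx] at this
  exact hsy.trans this

/-- a moved point has a small interval around it which is moved off itself -/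
theorem exists_off {f : FF} {x u v : ℝ} (hux : u < x) (hxv : x < v) (hfx : f • x ≠ x) :
    ∃ δ > 0, u < x - δ ∧ x + δ < v ∧ ∀ t, x - δ < t → t < x + δ → ¬ (x - δ < f • t ∧ f • t < x + δ) := by
  have hc := (cont f).continuousAt (x := x)
  have hd : 0 < |f • x - x| / 3 := by
    have := abs_pos.2 (sub_ne_zero.2 hfx)
    positivity
  obtain ⟨η, hη, h⟩ := Metric.continuousAt_iff.1 hc _ hd
  refine ⟨min (min (η / 2) (|f • x - x| / 3)) (min ((x - u) / 2) ((v - x) / 2)), ?_, ?_, ?_, ?_⟩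
  · refine lt_min (lt_min (by linarith) hd) (lt_min (by linarith) (by linarith))
  · have := (min_le_right (min (η / 2) (|f • x - x| / 3)) (min ((x - u) / 2) ((v - x) / 2))).trans
      (min_le_left _ _)
    linarith
  · have := (min_le_right (min (η / 2) (|f • x - x| / 3)) (min ((x - u) / 2) ((v - x) / 2))).trans
      (min_le_right _ _)
    linarith
  · intro t h1 h2 ⟨h3, h4⟩
    set δ := min (min (η / 2) (|f • x - x| / 3)) (min ((x - u) / 2) ((v - x) / 2)) with hδ
    have a1 : δ ≤ η / 2 := (min_le_left _ _).trans (min_le_left _ _)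
    have a2 : δ ≤ |f • x - x| / 3 := (min_le_left _ _).trans (min_le_right _ _)
    have h5 : dist t x < η := by
      rw [Real.dist_eq, abs_lt]; constructor <;> linarith
    have h6 := h h5
    rw [Real.dist_eq] at h6
    have h7 : |f • t - x| < |f • x - x| / 3 := by
      rw [abs_lt]; constructor <;> linarith
    have h8 : |f • x - x| ≤ |f • t - f • x| + |f • t - x| := by
      have : f • x - x = -(f • t - f • x) + (f • t - x) := by ring
      rw [this]
      exact (abs_add_le _ _).trans (by rw [abs_neg])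
    linarith

/-- noncommuting pairs with small support -/
theorem exists_noncomm {u v : ℝ} (hu : 0 ≤ u) (hv : v ≤ 1) (h : u < v) :
    ∃ p ∈ L u v, ∃ q ∈ L u v, p * q ≠ q * p := by
  set s := (u + v) / 2 with hs
  obtain ⟨p, hp, hps⟩ := exists_bump hu hv (s := s) (by rw [hs]; linarith) (by rw [hs]; linarith)
  obtain ⟨δ, hδ, h1, h2, h3⟩ := exists_off (f := p) (x := s) (u := u) (v := v)
    (by rw [hs]; linarith) (by rw [hs]; linarith) hps.ne'
  obtain ⟨q, hq, hqs⟩ := exists_bump (u := s - δ) (v := s + δ) (s := s) (by linarith) (by linarith)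
    (by linarith) (by linarith)
  refine ⟨p, hp, q, L_mono h1.le h2.le hq, fun hc => ?_⟩
  have h4 : p • (q • s) = q • (p • s) := by rw [← mul_smul, hc, mul_smul]
  have h5 : q • (p • s) = p • s := by
    refine hq _ ?_
    have := h3 s (by linarith) (by linarith)
    rw [not_and_or, not_lt, not_lt] at this
    exact this
  rw [h5] at h4
  have h6 := MulAction.injective p h4
  exact hqs.ne' h6

theorem exists_comm_ne {u v : ℝ} (hu : 0 ≤ u) (hv : v ≤ 1) (h : u < v) :
    ∃ g ∈ ⁅L u v, L u v⁆, g ≠ 1 := by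
  obtain ⟨p, hp, q, hq, hpq⟩ := exists_noncomm hu hv h
  refine ⟨⁅p, q⁆, Subgroup.commutator_mem_commutator hp hq, fun hc => hpq ?_⟩
  exact commutatorElement_eq_one_iff_mul_comm.1 hc

/-- an element commuting with the commutator subgroup of `L u v` is the identity on `(u,v)` -/
theorem cent_id {u v : ℝ} (hu : 0 ≤ u) (hv : v ≤ 1) {q : FF}
    (h : ∀ g ∈ ⁅L u v, L u v⁆, q * g = g * q) (x : ℝ) (h1 : u < x) (h2 : x < v) : q • x = x := by
  by_contra hc
  obtain ⟨δ, hδ, h3, h4, h5⟩ := exists_off h1 h2 hc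
  obtain ⟨g, hg, hg1⟩ := exists_comm_ne (u := x - δ) (v := x + δ) (by linarith) (by linarith)
    (by linarith)
  have hgL : g ∈ L (x - δ) (x + δ) := by
    have : ⁅L (x - δ) (x + δ), L (x - δ) (x + δ)⁆ ≤ L (x - δ) (x + δ) := by
      rw [Subgroup.commutator_le]
      intro a ha b hb
      exact mul_mem (mul_mem (mul_mem ha hb) (inv_mem ha)) (inv_mem hb)
    exact this hg
  have hcomm := h g (Subgroup.commutator_mono (L_mono h3.le h4.le) (L_mono h3.le h4.le) hg)
  apply hg1
  refine ffext fun t => ?_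
  rw [one_smul]
  by_cases ht : x - δ < t ∧ t < x + δ
  · have h6 : q • (g • t) = g • (q • t) := by rw [← mul_smul, hcomm, mul_smul]
    have h7 : g • (q • t) = q • t := by
      refine hgL _ ?_
      have := h5 t ht.1 ht.2
      rw [not_and_or, not_lt, not_lt] at this
      exact this
    rw [h7] at h6
    exact MulAction.injective q h6
  · refine hgL _ ?_
    rw [not_and_or, not_lt, not_lt] at ht
    exact ht

theorem comm_le_self (A : Subgroup FF) : ⁅A, A⁆ ≤ A := by
  rw [Subgroup.commutator_le]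
  intro a ha b hb
  exact mul_mem (mul_mem (mul_mem ha hb) (inv_mem ha)) (inv_mem hb)

/-- elements with complementary supports commute -/
theorem comm_of_supp {p q : FF} (h : ∀ x : ℝ, p • x = x ∨ q • x = x) : p * q = q * p := by
  refine ffext fun x => ?_
  rw [mul_smul, mul_smul]
  rcases h x with h1 | h1
  · -- p x = x
    rw [h1]
    rcases h (q • x) with h2 | h2
    · exact h2
    · have h3 : q • x = x := MulAction.injective q h2
      rw [h3, h1]
  · rw [h1]
    rcases h (p • x) with h2 | h2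
    · have h3 : p • x = x := MulAction.injective p h2
      rw [h3, h1]
    · exact h2.symm

/-- mixing: no two commuting normal subgroups -/
theorem mixing {u v : ℝ} (hu : 0 ≤ u) (hv : v ≤ 1) {n1 n2 : FF} (h1 : n1 ∈ L u v)
    (h2 : n2 ∈ L u v) (hn1 : n1 ≠ 1) (hn2 : n2 ≠ 1) :
    ∃ g ∈ L u v, n1 * (g * n2 * g⁻¹) ≠ (g * n2 * g⁻¹) * n1 := by
  by_contra hcon
  push Not at hcon
  -- dyadic points moved
  have key : ∀ n : FF, n ∈ L u v → n ≠ 1 → ∃ x : ℝ, Dy x ∧ u < x ∧ x < v ∧ n • x ≠ x := by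
    intro n hn hn1
    have : ∃ x : ℝ, n • x ≠ x := by
      by_contra hc
      push Not at hc
      exact hn1 (ffext fun x => by rw [hc x, one_smul])
    obtain ⟨x, hx⟩ := this
    have hxuv : u < x ∧ x < v := by
      by_contra hc
      rw [not_and_or, not_lt, not_lt] at hc
      exact hx (hn x hc)
    have hopen : IsOpen {y : ℝ | n • y ≠ y} := isOpen_ne_fun (cont n) continuous_id
    obtain ⟨ε, hε, hb⟩ := Metric.isOpen_iff.1 hopen x hx
    obtain ⟨y, hy, hy1, hy2⟩ := Dy.exists_between (show x < min (x + ε) v from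
      lt_min (by linarith) hxuv.2)
    refine ⟨y, hy, hxuv.1.trans hy1, hy2.trans_le (min_le_right _ _), ?_⟩
    refine hb ?_
    rw [Metric.mem_ball, Real.dist_eq, abs_lt]
    have := hy2.trans_le (min_le_left (x + ε) v)
    constructor <;> linarith
  obtain ⟨x, hx, hux, hxv, hnx⟩ := key n1 h1 hn1
  obtain ⟨y, hy, huy, hyv, hny⟩ := key n2 h2 hn2
  obtain ⟨c, hc, huc, hc2⟩ := Dy.exists_between (show u < min x y from lt_min hux huy)
  obtain ⟨d, hd, hd2, hdv⟩ := Dy.exists_between (show max x y < v from max_lt hxv hyv)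
  obtain ⟨g, hg, hgy⟩ := exists_move (hu.trans huc.le) (hdv.le.trans hv) hc hy hx hd
    (hc2.trans_le (min_le_right _ _)) ((le_max_right _ _).trans_lt hd2)
    (hc2.trans_le (min_le_left _ _)) ((le_max_left _ _).trans_lt hd2)
  have hgL : g ∈ L u v := L_mono huc.le hdv.le hg
  set m := g * n2 * g⁻¹ with hm
  have hmx : m • x ≠ x := by
    rw [hm, mul_smul, mul_smul]
    have : g⁻¹ • x = y := by rw [inv_smul_eq_iff]; exact hgy.symm
    rw [this]
    intro hcc
    apply hny
    rw [← hgy] at hcc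
    exact MulAction.injective g hcc
  obtain ⟨δ, hδ, e1, e2, e3⟩ := exists_off hux hxv hmx
  -- n1 commutes with the conjugates of m
  have hconj : ∀ w ∈ L u v, n1 * (w * m * w⁻¹) = (w * m * w⁻¹) * n1 := by
    intro w hw
    have := hcon (w * g) (mul_mem hw hgL)
    have e : w * g * n2 * (w * g)⁻¹ = w * m * w⁻¹ := by rw [hm]; group
    rw [e] at this
    exact this
  have hsub : L (x - δ) (x + δ) ≤ L u v := L_mono e1.le e2.le
  -- n1 commutes with commutators
  have hcm : ∀ g ∈ ⁅L (x - δ) (x + δ), L (x - δ) (x + δ)⁆, n1 * g = g * n1 := by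
    intro k hk
    have hle : ⁅L (x - δ) (x + δ), L (x - δ) (x + δ)⁆ ≤ Subgroup.centralizer {n1} := by
      rw [Subgroup.commutator_le]
      intro p hp q hq
      rw [Subgroup.mem_centralizer_singleton_iff]
      -- [p,q] = [[p,m],q]
      have hcA : m * p⁻¹ * m⁻¹ * q = q * (m * p⁻¹ * m⁻¹) := by
        refine comm_of_supp fun t => ?_
        by_cases ht : x - δ < t ∧ t < x + δ
        · left
          rw [mul_smul, mul_smul]
          have h9 : ¬ (x - δ < m⁻¹ • t ∧ m⁻¹ • t < x + δ) := by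
            intro h10
            have := e3 _ h10.1 h10.2
            rw [smul_inv_smul] at this
            exact this ht
          rw [not_and_or, not_lt, not_lt] at h9
          rw [inv_mem hp _ h9, smul_inv_smul]
        · right
          rw [not_and_or, not_lt, not_lt] at ht
          exact hq t ht
      have hcB : m * p * m⁻¹ * q = q * (m * p * m⁻¹) := by
        have : (m * p⁻¹ * m⁻¹)⁻¹ = m * p * m⁻¹ := by group
        have h10 : (m * p⁻¹ * m⁻¹)⁻¹ * (m * p⁻¹ * m⁻¹ * q) * (m * p⁻¹ * m⁻¹)⁻¹ =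
            (m * p⁻¹ * m⁻¹)⁻¹ * (q * (m * p⁻¹ * m⁻¹)) * (m * p⁻¹ * m⁻¹)⁻¹ := by rw [hcA]
        rw [this] at h10
        have l1 : m * p * m⁻¹ * (m * p⁻¹ * m⁻¹ * q) * (m * p * m⁻¹) = q * (m * p * m⁻¹) := by group
        have l2 : m * p * m⁻¹ * (q * (m * p⁻¹ * m⁻¹)) * (m * p * m⁻¹) = m * p * m⁻¹ * q := by group
        rw [l1, l2] at h10
        exact h10.symm
      have hid : ⁅p, q⁆ = (p * m * p⁻¹) * m⁻¹ * ((q * m * q⁻¹) * ((q * p) * m * (q * p)⁻¹)⁻¹) := by
        rw [commutatorElement_def]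
        -- RHS = p m p⁻¹ m⁻¹ q m q⁻¹ q p m⁻¹ p⁻¹ q⁻¹ = p (m p⁻¹ m⁻¹) q (m p m⁻¹) p⁻¹ q⁻¹
        have r1 : (p * m * p⁻¹) * m⁻¹ * ((q * m * q⁻¹) * ((q * p) * m * (q * p)⁻¹)⁻¹) =
            p * (m * p⁻¹ * m⁻¹) * (q * (m * p * m⁻¹)) * p⁻¹ * q⁻¹ := by group
        rw [r1, ← hcB]
        group
      rw [hid]
      have c1 : Commute n1 (p * m * p⁻¹) := hconj p (hsub hp)
      have c2 : Commute n1 m := by
        have := hconj 1 (one_mem _)
        simpa [Commute, SemiconjBy] using this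
      have c3 : Commute n1 (q * m * q⁻¹) := hconj q (hsub hq)
      have c4 : Commute n1 ((q * p) * m * (q * p)⁻¹) := hconj (q * p) (mul_mem (hsub hq) (hsub hp))
      exact ((c1.mul_right c2.inv_right).mul_right (c3.mul_right c4.inv_right)).eq.symm
    have := hle hk
    rw [Subgroup.mem_centralizer_singleton_iff] at this
    exact this.symm
  have := cent_id (u := x - δ) (v := x + δ) (by linarith) (by linarith) hcm x (by linarith)
    (by linarith)
  exact hnx this

end Q187.FInt
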