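import Mathlib
import Pool.Agent.Q187.FInt.Basic

/-!
If a subgroup `P` of `F` commutes with `q` then the commutator subgroup of `P` fixes every point
moved by `q`.
-/

set_option autoImplicit false

namespace Q187.FInt

open Pool.Agent.Helper283.PL Filter Topology
open scoped commutatorElement

/-- binary logarithm of the right slope -/
noncomputable def rs (f : FF) (x : ℝ) : ℤ := dR f.1 x

theorem rs_mul (f g : FF) (x : ℝ) : rs (f * g) x = rs f (g • x) + rs g x :=
  dR_mul f.2.1 g.2.1 x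

theorem rs_spec (f : FF) (x : ℝ) :
    ∃ c : ℝ, ∃ ε > 0, ∀ y : ℝ, x ≤ y → y < x + ε → f • y = (2 : ℝ) ^ (rs f x) * y + c := by
  obtain ⟨k, c, h⟩ := (f.2.1.2 x).1
  have hk : rs f x = k := dR_eq h
  rw [hk]
  obtain ⟨-, ε, hε, h⟩ := h
  exact ⟨c, ε, hε, fun y h1 h2 => h y h1 h2⟩

theorem rs_spec_fix {f : FF} {x : ℝ} (hx : f • x = x) :
    ∃ ε > 0, ∀ y : ℝ, x ≤ y → y < x + ε → f • y = x + (2 : ℝ) ^ (rs f x) * (y - x) := by
  obtain ⟨c, ε, hε, h⟩ := rs_spec f x
  refine ⟨ε, hε, fun y h1 h2 => ?_⟩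
  have h3 := h x le_rfl (by linarith)
  rw [hx] at h3
  rw [h y h1 h2]
  linear_combination -h3

theorem rs_of {f : FF} {x ε c : ℝ} {k : ℤ} (hε : 0 < ε) (hc : Dy c)
    (h : ∀ y : ℝ, x ≤ y → y < x + ε → f • y = (2 : ℝ) ^ k * y + c) : rs f x = k :=
  dR_eq (c := c) ⟨hc, ε, hε, h⟩

theorem rs_of_id {f : FF} {x ε : ℝ} (hε : 0 < ε)
    (h : ∀ y : ℝ, x ≤ y → y < x + ε → f • y = y) : rs f x = 0 :=
  rs_of hε Dy.zero (fun y h1 h2 => by rw [h y h1 h2]; simp)

theorem rs_one (x : ℝ) : rs 1 x = 0 := rs_of_id one_pos (fun y _ _ => one_smul _ y)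

theorem rs_inv {f : FF} {x : ℝ} (hx : f • x = x) : rs f⁻¹ x = -rs f x := by
  have h := rs_mul f⁻¹ f x
  rw [inv_mul_cancel, rs_one, hx] at h
  linarith

theorem rs_conj {p q : FF} {a : ℝ} (hqa : q • a = a) (hc : p * q = q * p) :
    rs q (p • a) = rs q a := by
  have h1 := rs_mul p q a
  have h2 := rs_mul q p a
  rw [hc, h2, hqa] at h1
  linarith

theorem fix_aux {p q : FF} {a : ℝ} (hqa : q • a = a) (hr : rs q a ≠ 0) (hc : p * q = q * p) :
    ¬ (a < p • a) := by
  intro hlt
  set u : ℕ → ℝ := fun n => p ^ n • a with hu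
  have hmono : StrictMono u := by
    refine strictMono_nat_of_lt_succ fun n => ?_
    simp only [hu, pow_succ, mul_smul]
    exact (smul_lt _).2 hlt
  have ha1 : a < 1 := by
    by_contra h1
    rw [ge1 p (not_lt.1 h1)] at hlt
    exact lt_irrefl _ hlt
  have hbd : ∀ n, u n < 1 := fun n => (smul_lt_one' _).2 ha1
  have hB : BddAbove (Set.range u) := ⟨1, by rintro _ ⟨n, rfl⟩; exact (hbd n).le⟩
  have htend := tendsto_atTop_ciSup hmono.monotone hB
  set b := ⨆ n, u n with hb
  obtain ⟨k, c, -, ε, hε, hloc⟩ := (q.2.1.2 b).2.1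
  have hcomm : ∀ n : ℕ, p ^ n * q = q * p ^ n := fun n => ((Commute.pow_left (show Commute p q from hc) n)).eq
  have hfix : ∀ n, q • u n = u n := by
    intro n
    simp only [hu]
    rw [← mul_smul, ← hcomm, mul_smul, hqa]
  have hrs : ∀ n, rs q (u n) = rs q a := fun n => rs_conj hqa (hcomm n)
  have hev : ∀ᶠ n in atTop, b - ε < u n := htend.eventually_const_lt (by linarith)
  obtain ⟨n, hn⟩ := hev.exists
  have hle : ∀ m, u m ≤ b := fun m => le_ciSup hB m
  have hlt2 : u n < u (n + 1) := hmono (Nat.lt_succ_self n)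
  have e1 : (2 : ℝ) ^ k * u n + c = u n := by
    rw [← hloc (u n) hn (hle n)]; exact hfix n
  have e2 : (2 : ℝ) ^ k * u (n + 1) + c = u (n + 1) := by
    rw [← hloc (u (n + 1)) (hn.trans hlt2) (hle _)]; exact hfix _
  have e3 : ((2 : ℝ) ^ k - 1) * (u (n + 1) - u n) = 0 := by linear_combination e2 - e1
  have e4 : (2 : ℝ) ^ k = 1 := by
    rcases mul_eq_zero.1 e3 with h | h
    · linarith
    · exfalso; linarith
  have e5 : c = 0 := by rw [e4] at e1; linarith
  have h0 : rs q (u n) = 0 := by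
    refine rs_of_id (ε := u (n + 1) - u n) (by linarith) fun y h1 h2 => ?_
    have := hloc y (hn.trans_le h1) (by have := hle (n + 1); linarith)
    rw [e4, e5] at this
    change q.1 y = y
    rw [this]; ring
  rw [hrs] at h0
  exact hr h0

theorem fix_of_comm {p q : FF} {a : ℝ} (hqa : q • a = a) (hr : rs q a ≠ 0) (hc : p * q = q * p) :
    p • a = a := by
  rcases lt_trichotomy (p • a) a with h | h | h
  · exfalso
    refine fix_aux hqa hr (p := p⁻¹) (by
      have : Commute p q := hc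
      exact this.inv_left.eq) ?_
    have := (smul_lt p⁻¹).2 h
    rwa [inv_smul_smul] at this
  · exact h
  · exact absurd h (fix_aux hqa hr hc)

/-- the stabilizer of the germ of the identity at `a` on the right -/
def germ (a : ℝ) : Subgroup FF where
  carrier := {g | g • a = a ∧ rs g a = 0}
  mul_mem' := fun {f g} hf hg => ⟨by rw [mul_smul, hg.1, hf.1], by rw [rs_mul, hg.1, hf.2, hg.2]; rfl⟩
  one_mem' := ⟨one_smul _ a, rs_one a⟩
  inv_mem' := fun {g} hg => ⟨by rw [inv_smul_eq_iff]; exact hg.1.symm, by rw [rs_inv hg.1, hg.2]; rfl⟩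

theorem derived_fix_lt {P : Subgroup FF} {q : FF} (hP : ∀ p ∈ P, p * q = q * p) {x : ℝ}
    (hx : q • x < x) {g : FF} (hg : g ∈ ⁅P, P⁆) : g • x = x := by
  set u : ℕ → ℝ := fun n => q ^ n • x with hu
  have hanti : StrictAnti u := by
    refine strictAnti_nat_of_succ_lt fun n => ?_
    simp only [hu, pow_succ, mul_smul]
    exact (smul_lt _).2 hx
  have hx0 : 0 < x := by
    by_contra h1
    rw [le0 q (not_lt.1 h1)] at hx
    exact lt_irrefl _ hx
  have hbd : ∀ n, 0 < u n := fun n => (smul_pos' _).2 hx0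
  have hB : BddBelow (Set.range u) := ⟨0, by rintro _ ⟨n, rfl⟩; exact (hbd n).le⟩
  have htend := tendsto_atTop_ciInf hanti.antitone hB
  set a := ⨅ n, u n with ha
  have hle : ∀ n, a ≤ u n := fun n => ciInf_le hB n
  have hlt : ∀ n, a < u n := fun n => (hle (n + 1)).trans_lt (hanti (Nat.lt_succ_self n))
  have hstep : ∀ n, q • u n = u (n + 1) := by
    intro n
    simp only [hu]
    rw [pow_succ', mul_smul]
  have hqa : q • a = a := by
    have h1 : Tendsto (fun n => q • u n) atTop (𝓝 (q • a)) := ((cont q).tendsto a).comp htend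
    have h2 : Tendsto (fun n => u (n + 1)) atTop (𝓝 a) := htend.comp (tendsto_add_atTop_nat 1)
    simp only [hstep] at h1
    exact tendsto_nhds_unique h1 h2
  have hr : rs q a ≠ 0 := by
    intro h0
    obtain ⟨ε, hε, h⟩ := rs_spec_fix hqa
    have hev : ∀ᶠ n in atTop, u n < a + ε := htend.eventually_lt_const (by linarith)
    obtain ⟨n, hn⟩ := hev.exists
    have h1 := h (u n) (hle n) hn
    rw [h0, hstep] at h1
    have h2 := hanti (Nat.lt_succ_self n)
    simp at h1
    linarith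
  have hfix : ∀ p ∈ P, p • a = a := fun p hp => fix_of_comm hqa hr (hP p hp)
  have hK : ⁅P, P⁆ ≤ germ a := by
    rw [Subgroup.commutator_le]
    intro p1 h1 p2 h2
    have f1 := hfix _ h1
    have f2 := hfix _ h2
    have i1 : p1⁻¹ • a = a := by rw [inv_smul_eq_iff]; exact f1.symm
    have i2 : p2⁻¹ • a = a := by rw [inv_smul_eq_iff]; exact f2.symm
    rw [commutatorElement_def]
    refine ⟨by rw [mul_smul, mul_smul, mul_smul, i2, i1, f2, f1], ?_⟩
    rw [rs_mul, rs_mul, rs_mul, i2, i1, f2, rs_inv f1, rs_inv f2]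
    ring
  have hga := hK hg
  obtain ⟨ε, hε, h⟩ := rs_spec_fix hga.1
  have hev : ∀ᶠ n in atTop, u n < a + ε := htend.eventually_lt_const (by linarith)
  obtain ⟨n, hn⟩ := hev.exists
  have h1 := h (u n) (hle n) hn
  rw [hga.2] at h1
  have h2 : g • u n = u n := by rw [h1]; simp
  have hgP : g ∈ P := comm_le_self P hg
  have hcomm : g * q ^ n = q ^ n * g :=
    (Commute.pow_right (show Commute g q from hP g hgP) n).eq
  have h3 : q ^ n • (g • x) = q ^ n • x := by
    rw [← mul_smul, ← hcomm, mul_smul]; exact h2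
  exact MulAction.injective _ h3

/-- if `P` commutes with `q` then `[P,P]` fixes the points moved by `q` -/
theorem derived_fix {P : Subgroup FF} {q : FF} (hP : ∀ p ∈ P, p * q = q * p) {x : ℝ}
    (hx : q • x ≠ x) {g : FF} (hg : g ∈ ⁅P, P⁆) : g • x = x := by
  rcases lt_or_gt_of_ne hx with h | h
  · exact derived_fix_lt hP h hg
  · refine derived_fix_lt (q := q⁻¹) (fun p hp => ?_) ?_ hg
    · exact (Commute.inv_right (show Commute p q from hP p hp)).eq
    · have := (smul_lt q⁻¹).2 h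
      rwa [inv_smul_smul] at this

end Q187.FInt
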