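import Mathlib
import Pool.Agent.Q187.FInt.Limit

/-!
Pairs of subgroups of `F` which look like `(F_[0,k], F_[k,1])`.
-/

set_option autoImplicit false

namespace Q187.FInt

open Pool.Agent.Helper283.PL Filter Topology
open scoped commutatorElement

/-- the group theoretic properties of the pair `(F_[0,k], F_[k,1])` -/
structure Pair (A B : Subgroup FF) : Prop where
  comm : ∀ a ∈ A, ∀ b ∈ B, a * b = b * a
  cA : ∀ q : FF, (∀ g ∈ ⁅A, A⁆, q * g = g * q) → q ∈ B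
  cB : ∀ q : FF, (∀ g ∈ ⁅B, B⁆, q * g = g * q) → q ∈ A
  mixA : ∀ n1 ∈ A, ∀ n2 ∈ A, n1 ≠ 1 → n2 ≠ 1 →
    ∃ g ∈ A, n1 * (g * n2 * g⁻¹) ≠ (g * n2 * g⁻¹) * n1
  mixB : ∀ n1 ∈ B, ∀ n2 ∈ B, n1 ≠ 1 → n2 ≠ 1 →
    ∃ g ∈ B, n1 * (g * n2 * g⁻¹) ≠ (g * n2 * g⁻¹) * n1
  neA : ∃ g ∈ ⁅A, A⁆, g ≠ 1
  neB : ∃ g ∈ ⁅B, B⁆, g ≠ 1

theorem Pair.symm {A B : Subgroup FF} (h : Pair A B) : Pair B A :=
  ⟨fun a ha b hb => (h.comm b hb a ha).symm, h.cB, h.cA, h.mixB, h.mixA, h.neB, h.neA⟩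

theorem mul_comm_map {θ : FF ≃* FF} {a b : FF} (h : a * b = b * a) : θ a * θ b = θ b * θ a := by
  rw [← map_mul, h, map_mul]

theorem Pair.map {A B : Subgroup FF} (h : Pair A B) (θ : FF ≃* FF) :
    Pair (A.map θ.toMonoidHom) (B.map θ.toMonoidHom) := by
  have hc : ∀ C : Subgroup FF, ⁅C.map θ.toMonoidHom, C.map θ.toMonoidHom⁆ =
    (⁅C, C⁆).map θ.toMonoidHom := fun C => (Subgroup.map_commutator _ _ _).symm
  have hcent : ∀ C D : Subgroup FF, (∀ q : FF, (∀ g ∈ ⁅C, C⁆, q * g = g * q) → q ∈ D) →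
      ∀ q : FF, (∀ g ∈ ⁅C.map θ.toMonoidHom, C.map θ.toMonoidHom⁆, q * g = g * q) →
        q ∈ D.map θ.toMonoidHom := by
    intro C D hCD q hq
    refine ⟨θ.symm q, hCD _ (fun g hg => ?_), θ.apply_symm_apply q⟩
    apply θ.injective
    rw [map_mul, map_mul, θ.apply_symm_apply]
    refine hq _ ?_
    rw [hc]
    exact ⟨g, hg, rfl⟩
  have hmix : ∀ C : Subgroup FF, (∀ n1 ∈ C, ∀ n2 ∈ C, n1 ≠ 1 → n2 ≠ 1 →
      ∃ g ∈ C, n1 * (g * n2 * g⁻¹) ≠ (g * n2 * g⁻¹) * n1) →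
      ∀ n1 ∈ C.map θ.toMonoidHom, ∀ n2 ∈ C.map θ.toMonoidHom, n1 ≠ 1 → n2 ≠ 1 →
      ∃ g ∈ C.map θ.toMonoidHom, n1 * (g * n2 * g⁻¹) ≠ (g * n2 * g⁻¹) * n1 := by
    rintro C hC _ ⟨n1, h1, rfl⟩ _ ⟨n2, h2, rfl⟩ hn1 hn2
    obtain ⟨g, hg, hne⟩ := hC n1 h1 n2 h2 (fun hc => hn1 (by rw [hc, map_one]))
      (fun hc => hn2 (by rw [hc, map_one]))
    refine ⟨θ g, ⟨g, hg, rfl⟩, fun hcc => hne ?_⟩
    apply θ.injective
    simpa using hcc
  have hne : ∀ C : Subgroup FF, (∃ g ∈ ⁅C, C⁆, g ≠ 1) →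
      ∃ g ∈ ⁅C.map θ.toMonoidHom, C.map θ.toMonoidHom⁆, g ≠ 1 := by
    rintro C ⟨g, hg, hg1⟩
    refine ⟨θ g, ?_, fun hcc => hg1 (by simpa using hcc)⟩
    rw [hc]; exact ⟨g, hg, rfl⟩
  refine ⟨?_, hcent _ _ h.cA, hcent _ _ h.cB, hmix _ h.mixA, hmix _ h.mixB, hne _ h.neA,
    hne _ h.neB⟩
  rintro _ ⟨a, ha, rfl⟩ _ ⟨b, hb, rfl⟩
  exact mul_comm_map (θ := θ) (h.comm a ha b hb)

/-- an element which is the identity on `(u,v)` is the identity on `[u,v]` -/
theorem id_closure {f : FF} {u v : ℝ} (huv : u < v) (h : ∀ x : ℝ, u < x → x < v → f • x = x)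
    (x : ℝ) (h1 : u ≤ x) (h2 : x ≤ v) : f • x = x := by
  have hcl : IsClosed {x : ℝ | f • x = x} := isClosed_eq (cont f) continuous_id
  have := closure_minimal (show Set.Ioo u v ⊆ {x : ℝ | f • x = x} from fun x hx => h x hx.1 hx.2) hcl
  rw [closure_Ioo huv.ne] at this
  exact this ⟨h1, h2⟩

theorem pair_std {k : ℝ} (h0 : 0 < k) (h1 : k < 1) : Pair (L 0 k) (L k 1) := by
  refine ⟨?_, ?_, ?_, ?_, ?_, ?_, ?_⟩
  · intro a ha b hb
    refine comm_of_supp fun x => ?_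
    rcases le_total x k with h | h
    · exact Or.inr (hb x (Or.inl h))
    · exact Or.inl (ha x (Or.inr h))
  · intro q hq x hx
    have hid := id_closure h0 (cent_id le_rfl h1.le hq)
    rcases hx with hx | hx
    · rcases le_total x 0 with h | h
      · exact le0 q h
      · exact hid x h hx
    · exact ge1 q hx
  · intro q hq x hx
    have hid := id_closure h1 (cent_id h0.le le_rfl hq)
    rcases hx with hx | hx
    · exact le0 q hx
    · rcases le_total x 1 with h | h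
      · exact hid x hx h
      · exact ge1 q h
  · intro n1 a1 n2 a2 b1 b2
    exact mixing le_rfl h1.le a1 a2 b1 b2
  · intro n1 a1 n2 a2 b1 b2
    exact mixing h0.le le_rfl a1 a2 b1 b2
  · exact exists_comm_ne le_rfl h1.le h0
  · exact exists_comm_ne h0.le le_rfl h1

/-- the points moved by `[A,A]` -/
def Mv (A : Subgroup FF) : Set ℝ := {x | ∃ f ∈ ⁅A, A⁆, f • x ≠ x}

theorem Mv_open (A : Subgroup FF) : IsOpen (Mv A) := by
  have : Mv A = ⋃ f ∈ ⁅A, A⁆, {x : ℝ | f • x ≠ x} := by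
    ext x; simp [Mv]
  rw [this]
  exact isOpen_biUnion fun f _ => isOpen_ne_fun (cont f) continuous_id

theorem Mv_pos {A : Subgroup FF} {x : ℝ} (h : x ∈ Mv A) : 0 < x ∧ x < 1 := by
  obtain ⟨f, -, hf⟩ := h
  constructor
  · by_contra hc; exact hf (le0 f (not_lt.1 hc))
  · by_contra hc; exact hf (ge1 f (not_lt.1 hc))

theorem Pair.idB {A B : Subgroup FF} (h : Pair A B) {f : FF} (hf : f ∈ A) {z : ℝ} (hz : z ∈ Mv B) :
    f • z = z := by
  by_contra hc
  obtain ⟨g, hg, hgz⟩ := hz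
  exact hgz (derived_fix (P := B) (q := f) (fun p hp => (h.comm f hf p hp).symm) hc hg)

theorem Pair.memA {A B : Subgroup FF} (h : Pair A B) {f : FF} (hf : ∀ z ∈ Mv B, f • z = z) :
    f ∈ A := by
  refine h.cB f fun g hg => comm_of_supp fun x => ?_
  by_cases hx : g • x = x
  · exact Or.inr hx
  · exact Or.inl (hf x ⟨g, hg, hx⟩)

theorem Pair.disj {A B : Subgroup FF} (h : Pair A B) {x : ℝ} (h1 : x ∈ Mv A) : x ∉ Mv B := by
  intro h2
  obtain ⟨f, hf, hfx⟩ := h1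
  exact hfx (h.idB (comm_le_self A hf) h2)

theorem Pair.dense {A B : Subgroup FF} (h : Pair A B) {u v : ℝ} (hu : 0 ≤ u) (hv : v ≤ 1)
    (huv : u < v) : ∃ x, u < x ∧ x < v ∧ (x ∈ Mv A ∨ x ∈ Mv B) := by
  by_contra hc
  push Not at hc
  have hsub : L u v ≤ A := by
    intro f hf
    refine h.memA fun z hz => ?_
    refine hf z ?_
    by_contra hcc
    rw [not_or, not_le, not_le] at hcc
    exact (hc z hcc.1 hcc.2).2 hz
  obtain ⟨g, hg, hg1⟩ := exists_comm_ne hu hv huv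
  apply hg1
  refine ffext fun t => ?_
  rw [one_smul]
  by_contra htt
  have htA : t ∈ Mv A := ⟨g, Subgroup.commutator_mono hsub hsub hg, htt⟩
  have hgL := comm_le_self _ hg
  by_cases ht : u < t ∧ t < v
  · exact (hc t ht.1 ht.2).1 htA
  · rw [not_and_or, not_lt, not_lt] at ht
    exact htt (hgL t ht)

/-- cutting at a fixed dyadic point -/
theorem exists_cut {f : FF} {p : ℝ} (hp : Dy p) (hfp : f • p = p) :
    (∃ g : FF, (∀ x : ℝ, x ≤ p → g • x = f • x) ∧ ∀ x : ℝ, p ≤ x → g • x = x) ∧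
    (∃ g : FF, (∀ x : ℝ, x ≤ p → g • x = x) ∧ ∀ x : ℝ, p ≤ x → g • x = f • x) := by
  constructor
  · obtain ⟨e, he, h1, h2⟩ := PLH_glue f.2.1 PLH.one_mem hp (by
      change f • p = p; exact hfp)
    refine ⟨⟨e, he, fun x hx => ?_⟩, fun x hx => h1 x hx, fun x hx => h2 x hx⟩
    rcases le_total x p with h | h
    · rw [h1 x h]; exact f.2.2 x hx
    · rw [h2 x h]; rfl
  · obtain ⟨e, he, h1, h2⟩ := PLH_glue PLH.one_mem f.2.1 hp (by
      change p = f • p; exact hfp.symm)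
    refine ⟨⟨e, he, fun x hx => ?_⟩, fun x hx => h1 x hx, fun x hx => h2 x hx⟩
    rcases le_total x p with h | h
    · rw [h1 x h]; rfl
    · rw [h2 x h]; exact f.2.2 x hx

/-- no point of `Mv B` between two points of `Mv A` -/
theorem Pair.nobetween {A B : Subgroup FF} (h : Pair A B) {w1 z w2 : ℝ} (h1 : w1 ∈ Mv A)
    (hz : z ∈ Mv B) (h2 : w2 ∈ Mv A) (hlt1 : w1 < z) (hlt2 : z < w2) : False := by
  -- a dyadic point of `Mv B`
  obtain ⟨ε, hε, hb⟩ := Metric.isOpen_iff.1 (Mv_open B) z hz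
  obtain ⟨p, hp, hp1, hp2⟩ := Dy.exists_between (show z < min (z + ε) w2 from
    lt_min (by linarith) hlt2)
  have hpB : p ∈ Mv B := by
    apply hb
    rw [Metric.mem_ball, Real.dist_eq, abs_lt]
    have := hp2.trans_le (min_le_left (z + ε) w2)
    constructor <;> linarith
  have hpw : p < w2 := hp2.trans_le (min_le_right _ _)
  obtain ⟨f1, hf1, hf1w⟩ := h1
  obtain ⟨f2, hf2, hf2w⟩ := h2
  have hf1A := comm_le_self A hf1
  have hf2A := comm_le_self A hf2
  obtain ⟨⟨n1, a1, a2⟩, -⟩ := exists_cut hp (h.idB hf1A hpB)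
  obtain ⟨-, ⟨n2, b1, b2⟩⟩ := exists_cut hp (h.idB hf2A hpB)
  have hn1A : n1 ∈ A := by
    refine h.memA fun t ht => ?_
    rcases le_total t p with h3 | h3
    · rw [a1 t h3]; exact h.idB hf1A ht
    · exact a2 t h3
  have hn2A : n2 ∈ A := by
    refine h.memA fun t ht => ?_
    rcases le_total t p with h3 | h3
    · exact b1 t h3
    · rw [b2 t h3]; exact h.idB hf2A ht
  have hn1 : n1 ≠ 1 := by
    intro hc
    apply hf1w
    rw [← a1 w1 (hlt1.trans hp1).le, hc, one_smul]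
  have hn2 : n2 ≠ 1 := by
    intro hc
    apply hf2w
    rw [← b2 w2 hpw.le, hc, one_smul]
  obtain ⟨g, hg, hne⟩ := h.mixA n1 hn1A n2 hn2A hn1 hn2
  apply hne
  have hgp : g • p = p := h.idB hg hpB
  refine comm_of_supp fun x => ?_
  rcases le_total x p with h3 | h3
  · right
    rw [mul_smul, mul_smul]
    have h4 : g⁻¹ • x ≤ p := by
      have h5 : g⁻¹ • p = p := by rw [inv_smul_eq_iff]; exact hgp.symm
      rw [← h5]; exact (smul_le _).2 h3
    rw [b1 _ h4, smul_inv_smul]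
  · exact Or.inl (a2 x h3)

theorem Pair.ordered {A B : Subgroup FF} (h : Pair A B) :
    (∀ w ∈ Mv A, ∀ z ∈ Mv B, w < z) ∨ (∀ w ∈ Mv A, ∀ z ∈ Mv B, z < w) := by
  by_contra hc
  rw [not_or] at hc
  push Not at hc
  obtain ⟨⟨w0, hw0, z0, hz0, h1⟩, ⟨w1, hw1, z1, hz1, h2⟩⟩ := hc
  have hne : ∀ w ∈ Mv A, ∀ z ∈ Mv B, w ≠ z := fun w hw z hz hcc => h.disj hw (hcc ▸ hz)
  have h1' : z0 < w0 := lt_of_le_of_ne h1 (hne w0 hw0 z0 hz0).symm
  have h2' : w1 < z1 := lt_of_le_of_ne h2 (hne w1 hw1 z1 hz1)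
  -- z0 < w0, w1 < z1
  rcases lt_trichotomy w1 z0 with h3 | h3 | h3
  · -- w1 < z0 < w0
    exact h.nobetween hw1 hz0 hw0 h3 h1'
  · exact hne w1 hw1 z0 hz0 h3
  · -- z0 < w1 < z1
    exact h.symm.nobetween hz0 hw1 hz1 h3 h2'

theorem Pair.std_of_lt {A B : Subgroup FF} (h : Pair A B)
    (hlt : ∀ w ∈ Mv A, ∀ z ∈ Mv B, w < z) :
    ∃ k : ℝ, 0 < k ∧ k < 1 ∧ A = L 0 k ∧ B = L k 1 := by
  obtain ⟨w0, hw0⟩ : (Mv A).Nonempty := by
    obtain ⟨g, hg, hg1⟩ := h.neA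
    by_contra hc
    apply hg1
    refine ffext fun x => ?_
    rw [one_smul]
    by_contra hx
    exact hc ⟨x, g, hg, hx⟩
  obtain ⟨z0, hz0⟩ : (Mv B).Nonempty := by
    obtain ⟨g, hg, hg1⟩ := h.neB
    by_contra hc
    apply hg1
    refine ffext fun x => ?_
    rw [one_smul]
    by_contra hx
    exact hc ⟨x, g, hg, hx⟩
  have hbd : BddAbove (Mv A) := ⟨1, fun x hx => (Mv_pos hx).2.le⟩
  set k := sSup (Mv A) with hk
  have hwk : ∀ w ∈ Mv A, w ≤ k := fun w hw => le_csSup hbd hw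
  have hkz : ∀ z ∈ Mv B, k ≤ z := fun z hz => csSup_le ⟨w0, hw0⟩ fun w hw => (hlt w hw z hz).le
  have hk0 : 0 < k := (Mv_pos hw0).1.trans_le (hwk w0 hw0)
  have hk1 : k < 1 := (hkz z0 hz0).trans_lt (Mv_pos hz0).2
  refine ⟨k, hk0, hk1, ?_, ?_⟩
  · apply le_antisymm
    · intro f hf x hx
      rcases hx with hx | hx
      · exact le0 f hx
      · rcases le_total 1 x with h3 | h3
        · exact ge1 f h3
        · refine id_closure hk1 (fun y hy1 hy2 => ?_) x hx h3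
          by_contra hne
          have hopen : IsOpen {y : ℝ | f • y ≠ y} := isOpen_ne_fun (cont f) continuous_id
          obtain ⟨ε, hε, hb⟩ := Metric.isOpen_iff.1 hopen y hne
          obtain ⟨t, ht1, ht2, ht⟩ := h.dense (u := y) (v := min (y + ε) 1) (by linarith)
            (min_le_right _ _) (lt_min (by linarith) hy2)
          rcases ht with ht | ht
          · have := hwk t ht; linarith
          · have h4 := h.idB hf ht
            refine hb ?_ h4
            rw [Metric.mem_ball, Real.dist_eq, abs_lt]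
            have := ht2.trans_le (min_le_left (y + ε) 1)
            constructor <;> linarith
    · intro f hf
      exact h.memA fun z hz => hf z (Or.inr (hkz z hz))
  · apply le_antisymm
    · intro f hf x hx
      rcases hx with hx | hx
      · rcases le_total x 0 with h3 | h3
        · exact le0 f h3
        · refine id_closure hk0 (fun y hy1 hy2 => ?_) x h3 hx
          by_contra hne
          have hopen : IsOpen {y : ℝ | f • y ≠ y} := isOpen_ne_fun (cont f) continuous_id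
          obtain ⟨ε, hε, hb⟩ := Metric.isOpen_iff.1 hopen y hne
          obtain ⟨t, ht1, ht2, ht⟩ := h.dense (u := y) (v := min (y + ε) k) (by linarith)
            ((min_le_right _ _).trans hk1.le) (lt_min (by linarith) hy2)
          rcases ht with ht | ht
          · have h4 := h.symm.idB hf ht
            refine hb ?_ h4
            rw [Metric.mem_ball, Real.dist_eq, abs_lt]
            have := ht2.trans_le (min_le_left (y + ε) k)
            constructor <;> linarith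
          · have := hkz t ht
            have := ht2.trans_le (min_le_right (y + ε) k)
            linarith
      · exact ge1 f hx
    · intro f hf
      exact h.symm.memA fun w hw => hf w (Or.inl (hwk w hw))

/-- classification of pairs -/
theorem Pair.classify {A B : Subgroup FF} (h : Pair A B) :
    ∃ k : ℝ, 0 < k ∧ k < 1 ∧ ((A = L 0 k ∧ B = L k 1) ∨ (A = L k 1 ∧ B = L 0 k)) := by
  rcases h.ordered with h1 | h1
  · obtain ⟨k, h2, h3, h4, h5⟩ := h.std_of_lt h1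
    exact ⟨k, h2, h3, Or.inl ⟨h4, h5⟩⟩
  · obtain ⟨k, h2, h3, h4, h5⟩ := h.symm.std_of_lt (fun w hw z hz => h1 z hz w hw)
    exact ⟨k, h2, h3, Or.inr ⟨h5, h4⟩⟩

end Q187.FInt
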