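import Mathlib
import Pool.Agent.Q187.FInt.Pair
import Pool.Agent.Q187.FInt.Germ

/-!
Automorphisms of Thompson's group `F`.
-/

set_option autoImplicit false

namespace Q187.FInt

open Pool.Agent.Helper283.PL Filter Topology
open scoped commutatorElement

theorem L_le_iff {k k' : ℝ} (h0 : 0 < k) (h1 : k < 1) (h0' : 0 < k') :
    L 0 k ≤ L 0 k' ↔ k ≤ k' := by
  constructor
  · intro h
    by_contra hc
    rw [not_le] at hc
    obtain ⟨g, hg, hg1⟩ := exists_bump (u := k') (v := k) (s := (k' + k) / 2) h0'.le h1.le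
      (by linarith) (by linarith)
    have := h (L_mono h0'.le le_rfl hg) ((k' + k) / 2) (Or.inr (by linarith))
    rw [this] at hg1
    exact lt_irrefl _ hg1
  · intro h; exact L_mono le_rfl h

theorem L_inj {k k' : ℝ} (h0 : 0 < k) (h1 : k < 1) (h0' : 0 < k') (h1' : k' < 1)
    (h : L 0 k = L 0 k') : k = k' :=
  le_antisymm ((L_le_iff h0 h1 h0').1 h.le) ((L_le_iff h0' h1' h0).1 h.ge)

theorem L_not_le {k κ : ℝ} (h0 : 0 < k) (h0' : 0 < κ) (h1' : κ < 1) :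
    ¬ (L 0 k ≤ L κ 1) := by
  intro h
  have hm : 0 < min k κ := lt_min h0 h0'
  obtain ⟨g, hg, hg1⟩ := exists_bump (u := 0) (v := min k κ) (s := min k κ / 2) le_rfl
    ((min_le_right _ _).trans h1'.le) (by linarith) (by linarith)
  have := h (L_mono le_rfl (min_le_left _ _) hg) (min k κ / 2) (Or.inl (by
    have := min_le_right k κ
    linarith))
  rw [this] at hg1
  exact lt_irrefl _ hg1

theorem L_not_le' {k κ : ℝ} (h1 : k < 1) (h0' : 0 < κ) (h1' : κ < 1) :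
    ¬ (L k 1 ≤ L 0 κ) := by
  intro h
  have hm : max k κ < 1 := max_lt h1 h1'
  obtain ⟨g, hg, hg1⟩ := exists_bump (u := max k κ) (v := 1) (s := (max k κ + 1) / 2)
    (h0'.le.trans (le_max_right _ _)) le_rfl (by linarith) (by linarith)
  have := h (L_mono (le_max_left _ _) le_rfl hg) ((max k κ + 1) / 2) (Or.inr (by
    have := le_max_right k κ
    linarith))
  rw [this] at hg1
  exact lt_irrefl _ hg1

/-- `θ` maps `(F_[0,k], F_[k,1])` to `(F_[0,κ], F_[κ,1])` -/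
def RP (θ : FF ≃* FF) (k κ : ℝ) : Prop :=
  0 < κ ∧ κ < 1 ∧ (L 0 k).map θ.toMonoidHom = L 0 κ ∧ (L k 1).map θ.toMonoidHom = L κ 1

/-- `θ` maps `(F_[0,k], F_[k,1])` to `(F_[κ,1], F_[0,κ])` -/
def RN (θ : FF ≃* FF) (k κ : ℝ) : Prop :=
  0 < κ ∧ κ < 1 ∧ (L 0 k).map θ.toMonoidHom = L κ 1 ∧ (L k 1).map θ.toMonoidHom = L 0 κ

/-- orientation preserving automorphisms -/
def Pos (θ : FF ≃* FF) : Prop := ∀ k : ℝ, 0 < k → k < 1 → ∃ κ, RP θ k κ

/-- orientation reversing automorphisms -/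
def Neg (θ : FF ≃* FF) : Prop := ∀ k : ℝ, 0 < k → k < 1 → ∃ κ, RN θ k κ

theorem rp_or_rn (θ : FF ≃* FF) {k : ℝ} (h0 : 0 < k) (h1 : k < 1) :
    (∃ κ, RP θ k κ) ∨ (∃ κ, RN θ k κ) := by
  obtain ⟨κ, a, b, h | h⟩ := ((pair_std h0 h1).map θ).classify
  · exact Or.inl ⟨κ, a, b, h.1, h.2⟩
  · exact Or.inr ⟨κ, a, b, h.1, h.2⟩

theorem rp_rn_absurd {θ : FF ≃* FF} {k k' κ κ' : ℝ} (h : RP θ k κ) (h' : RN θ k' κ') : False := by
  rcases le_total k k' with hk | hk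
  · -- L 0 k ≤ L 0 k'
    have h3 := Subgroup.map_mono (f := θ.toMonoidHom) (L_mono (u := 0) (u' := 0) le_rfl hk)
    rw [h.2.2.1, h'.2.2.1] at h3
    exact L_not_le h.1 h'.1 h'.2.1 h3
  · -- L k 1 ≤ L k' 1
    have h3 := Subgroup.map_mono (f := θ.toMonoidHom) (L_mono (v := 1) (v' := 1) hk le_rfl)
    rw [h.2.2.2, h'.2.2.2] at h3
    exact L_not_le' h.2.1 h'.1 h'.2.1 h3

theorem pos_or_neg (θ : FF ≃* FF) : Pos θ ∨ Neg θ := by
  by_contra hc
  rw [not_or] at hc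
  obtain ⟨h1, h2⟩ := hc
  simp only [Pos, Neg, not_forall] at h1 h2
  obtain ⟨k, hk0, hk1, hk⟩ := h1
  obtain ⟨k', hk0', hk1', hk'⟩ := h2
  obtain ⟨κ, h3⟩ := (rp_or_rn θ hk0 hk1).resolve_left hk
  obtain ⟨κ', h4⟩ := (rp_or_rn θ hk0' hk1').resolve_right hk'
  exact rp_rn_absurd h4 h3

theorem not_pos_neg {θ : FF ≃* FF} (h : Pos θ) (h' : Neg θ) : False := by
  obtain ⟨κ, h1⟩ := h (1 / 2) (by norm_num) (by norm_num)
  obtain ⟨κ', h2⟩ := h' (1 / 2) (by norm_num) (by norm_num)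
  exact rp_rn_absurd h1 h2

theorem map_map_symm (θ : FF ≃* FF) (A : Subgroup FF) :
    (A.map θ.toMonoidHom).map θ.symm.toMonoidHom = A := by
  rw [Subgroup.map_map]
  have : θ.symm.toMonoidHom.comp θ.toMonoidHom = MonoidHom.id FF := by
    ext1 x; exact θ.symm_apply_apply x
  rw [this, Subgroup.map_id]

theorem pos_symm {θ : FF ≃* FF} (h : Pos θ) : Pos θ.symm := by
  rcases pos_or_neg θ.symm with h1 | h1
  · exact h1
  · exfalso
    obtain ⟨κ, a, b, c, d⟩ := h1 (1 / 2) (by norm_num) (by norm_num)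
    obtain ⟨κ', a', b', c', d'⟩ := h κ a b
    have e : (L 0 (1 / 2 : ℝ)) = (L κ 1).map θ.toMonoidHom := by
      rw [← c]
      have := map_map_symm θ.symm (L 0 (1 / 2 : ℝ))
      rw [MulEquiv.symm_symm] at this
      exact this.symm
    rw [d'] at e
    exact L_not_le (by norm_num) a' b' e.le

/-- the homeomorphism inducing `θ` -/
noncomputable def hf (θ : FF ≃* FF) (h : Pos θ) (k : ℝ) : ℝ :=
  open Classical in if hk : 0 < k ∧ k < 1 then (h k hk.1 hk.2).choose else 0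

theorem hf_spec {θ : FF ≃* FF} (h : Pos θ) {k : ℝ} (h0 : 0 < k) (h1 : k < 1) :
    RP θ k (hf θ h k) := by
  unfold hf
  rw [dif_pos ⟨h0, h1⟩]
  exact (h k h0 h1).choose_spec

theorem hf_eq {θ : FF ≃* FF} (h : Pos θ) {k κ : ℝ} (h0 : 0 < k) (h1 : k < 1) (h2 : 0 < κ)
    (h3 : κ < 1) (h4 : (L 0 k).map θ.toMonoidHom = L 0 κ) : hf θ h k = κ := by
  have hs := hf_spec h h0 h1
  exact L_inj hs.1 hs.2.1 h2 h3 (by rw [← hs.2.2.1, h4])

theorem hf_mono {θ : FF ≃* FF} (h : Pos θ) {k k' : ℝ} (h0 : 0 < k) (hk : k < k') (h1 : k' < 1) :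
    hf θ h k < hf θ h k' := by
  have hs := hf_spec h h0 (hk.trans h1)
  have hs' := hf_spec h (h0.trans hk) h1
  have hle : hf θ h k ≤ hf θ h k' := by
    refine (L_le_iff hs.1 hs.2.1 hs'.1).1 ?_
    rw [← hs.2.2.1, ← hs'.2.2.1]
    exact Subgroup.map_mono (L_mono le_rfl hk.le)
  refine lt_of_le_of_ne hle fun hc => ?_
  have h3 : (L 0 k).map θ.toMonoidHom = (L 0 k').map θ.toMonoidHom := by
    rw [hs.2.2.1, hs'.2.2.1, hc]
  have h4 := Subgroup.map_injective (f := θ.toMonoidHom) θ.injective h3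
  exact hk.ne (L_inj h0 (hk.trans h1) (h0.trans hk) h1 h4)

theorem hf_symm {θ : FF ≃* FF} (h : Pos θ) {κ : ℝ} (h0 : 0 < κ) (h1 : κ < 1) :
    hf θ h (hf θ.symm (pos_symm h) κ) = κ := by
  have hs := hf_spec (pos_symm h) h0 h1
  refine hf_eq h hs.1 hs.2.1 h0 h1 ?_
  rw [← hs.2.2.1]
  exact map_map_symm θ.symm _

/-- conjugation of `L 0 k` -/
theorem mem_conj {g f : FF} {k : ℝ} : f ∈ L 0 (g • k) ↔ g⁻¹ * f * g ∈ L 0 k := by
  constructor
  · intro h x hx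
    rw [mul_smul, mul_smul]
    rcases hx with hx | hx
    · rw [le0 g hx, le0 f hx, le0 _ hx]
    · rw [h (g • x) (Or.inr ((smul_le g).2 hx)), inv_smul_smul]
  · intro h x hx
    rcases hx with hx | hx
    · exact le0 f hx
    · have h1 : k ≤ g⁻¹ • x := by
        rw [← smul_le g, smul_inv_smul]; exact hx
      have h2 := h (g⁻¹ • x) (Or.inr h1)
      rw [mul_smul, mul_smul, smul_inv_smul] at h2
      exact MulAction.injective g⁻¹ h2

theorem hf_equiv {θ : FF ≃* FF} (h : Pos θ) (g : FF) {k : ℝ} (h0 : 0 < k) (h1 : k < 1) :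
    hf θ h (g • k) = θ g • hf θ h k := by
  have hs := hf_spec h h0 h1
  refine hf_eq h ((smul_pos' g).2 h0) ((smul_lt_one' g).2 h1) ((smul_pos' _).2 hs.1)
    ((smul_lt_one' _).2 hs.2.1) ?_
  ext φ
  rw [mem_conj, ← hs.2.2.1]
  constructor
  · rintro ⟨f, hf, rfl⟩
    refine ⟨g⁻¹ * f * g, mem_conj.1 hf, ?_⟩
    simp
  · rintro ⟨f, hf, hfe⟩
    refine ⟨g * f * g⁻¹, ?_, ?_⟩
    · refine mem_conj.2 ?_
      have : g⁻¹ * (g * f * g⁻¹) * g = f := by group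
      rw [this]; exact hf
    · change θ (g * f * g⁻¹) = φ
      change θ f = (θ g)⁻¹ * φ * θ g at hfe
      rw [map_mul, map_mul, map_inv, hfe]
      group

theorem hf_comp {θ₁ θ₂ : FF ≃* FF} (h1 : Pos θ₁) (h2 : Pos θ₂) {k : ℝ} (hk0 : 0 < k) (hk1 : k < 1) :
    (L 0 k).map (θ₂.trans θ₁).toMonoidHom = L 0 (hf θ₁ h1 (hf θ₂ h2 k)) ∧
      (L k 1).map (θ₂.trans θ₁).toMonoidHom = L (hf θ₁ h1 (hf θ₂ h2 k)) 1 := by
  have hs2 := hf_spec h2 hk0 hk1
  have hs1 := hf_spec h1 hs2.1 hs2.2.1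
  have e : (θ₂.trans θ₁).toMonoidHom = θ₁.toMonoidHom.comp θ₂.toMonoidHom := rfl
  rw [e, ← Subgroup.map_map, ← Subgroup.map_map, hs2.2.2.1, hs2.2.2.2, hs1.2.2.1, hs1.2.2.2]
  exact ⟨rfl, rfl⟩

theorem pos_trans {θ₁ θ₂ : FF ≃* FF} (h1 : Pos θ₁) (h2 : Pos θ₂) : Pos (θ₂.trans θ₁) := by
  intro k hk0 hk1
  have hs2 := hf_spec h2 hk0 hk1
  have hs1 := hf_spec h1 hs2.1 hs2.2.1
  exact ⟨_, hs1.1, hs1.2.1, (hf_comp h1 h2 hk0 hk1).1, (hf_comp h1 h2 hk0 hk1).2⟩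

/-! ### The slope at `0` -/

/-- `f ↦` the logarithm of the slope at `0`, as a homomorphism -/
noncomputable def aH : FF →* Multiplicative ℤ where
  toFun f := Multiplicative.ofAdd (rs f 0)
  map_one' := by rw [rs_one]; rfl
  map_mul' f g := by rw [rs_mul, le0 g le_rfl]; rfl

theorem rs0_mul (f g : FF) : rs (f * g) 0 = rs f 0 + rs g 0 := by
  rw [rs_mul, le0 g le_rfl]

theorem rs0_inv (f : FF) : rs f⁻¹ 0 = -rs f 0 := rs_inv (le0 f le_rfl)

theorem rs0_zpow (f : FF) (n : ℤ) : rs (f ^ n) 0 = n * rs f 0 := by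
  have h : aH (f ^ n) = (aH f) ^ n := map_zpow aH f n
  have h2 := congrArg Multiplicative.toAdd h
  rw [toAdd_zpow] at h2
  simpa [aH] using h2

theorem exists_x0 : ∃ x0 : FF, (∀ t : ℝ, 0 ≤ t → t ≤ 1 / 2 → x0 • t = t / 2) ∧
    ∀ t : ℝ, 3 / 4 ≤ t → x0 • t = t := by
  have d1 : Dy (1 / 2) := Dy.half Dy.one
  have d2 : Dy (3 / 4) := ⟨3, 2, by norm_num⟩
  have d3 : Dy (1 / 4) := ⟨1, 2, by norm_num⟩
  obtain ⟨e2, he2, h2a, h2b⟩ := PLH_interp d1 d2 d3 d2 (by norm_num) (by norm_num)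
  obtain ⟨e3, he3, h3a, h3b⟩ := PLH_glue (aff_mem_10050 (-1) Dy.zero) he2 d1 (by
    rw [h2a]
    change (2 : ℝ) ^ (-1 : ℤ) * (1 / 2) + 0 = 1 / 4
    norm_num)
  obtain ⟨e4, he4, h4a, h4b⟩ := PLH_glue PLH.one_mem he3 Dy.zero (by
    rw [h3a 0 (by norm_num)]
    change (0 : ℝ) = (2 : ℝ) ^ (-1 : ℤ) * 0 + 0
    norm_num)
  obtain ⟨e5, he5, h5a, h5b⟩ := PLH_glue he4 PLH.one_mem d2 (by
    rw [h4b (3 / 4) (by norm_num), h3b (3 / 4) (by norm_num), h2b]; rfl)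
  refine ⟨⟨e5, he5, ?_⟩, ?_, ?_⟩
  · intro x hx
    rcases hx with hx | hx
    · rw [h5a x (by linarith), h4a x hx]; rfl
    · rw [h5b x (by linarith)]; rfl
  · intro t ht0 ht1
    change e5 t = t / 2
    rw [h5a t (by linarith), h4b t ht0, h3a t ht1]
    change (2 : ℝ) ^ (-1 : ℤ) * t + 0 = t / 2
    rw [zpow_neg_one]; ring
  · intro t ht
    change e5 t = t
    rw [h5b t ht]; rfl

/-- a fixed element with slope `1/2` at `0` which is the identity near `1` -/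
noncomputable def x0 : FF := exists_x0.choose

theorem x0_half {t : ℝ} (h0 : 0 ≤ t) (h1 : t ≤ 1 / 2) : x0 • t = t / 2 :=
  exists_x0.choose_spec.1 t h0 h1

theorem x0_id {t : ℝ} (h0 : 3 / 4 ≤ t) : x0 • t = t := exists_x0.choose_spec.2 t h0

theorem rs_x0 : rs x0 0 = -1 := by
  refine rs_of (ε := 1 / 2) (c := 0) (by norm_num) Dy.zero fun y h1 h2 => ?_
  rw [x0_half h1 (by linarith), zpow_neg_one]; ring

theorem rs0_eq_zero_iff {f : FF} : rs f 0 = 0 ↔ ∃ k : ℝ, 0 < k ∧ k < 1 ∧ f ∈ L k 1 := by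
  constructor
  · intro h
    obtain ⟨ε, hε, h1⟩ := rs_spec_fix (le0 f (le_refl (0:ℝ)))
    refine ⟨min (ε / 2) (1 / 2), lt_min (by linarith) (by norm_num),
      (min_le_right _ _).trans_lt (by norm_num), fun x hx => ?_⟩
    rcases hx with hx | hx
    · rcases le_total x 0 with h2 | h2
      · exact le0 f h2
      · have h3 := h1 x h2 (by have := hx.trans (min_le_left _ _); linarith)
        rw [h] at h3
        rw [h3]; simp
    · exact ge1 f hx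
  · rintro ⟨k, hk0, hk1, hk⟩
    exact rs_of_id hk0 fun y h1 h2 => hk y (Or.inl (by linarith))

theorem rs_zero_pres {θ : FF ≃* FF} (h : Pos θ) {f : FF} (hf : rs f 0 = 0) : rs (θ f) 0 = 0 := by
  obtain ⟨k, hk0, hk1, hk⟩ := rs0_eq_zero_iff.1 hf
  have hs := hf_spec h hk0 hk1
  refine rs0_eq_zero_iff.2 ⟨_, hs.1, hs.2.1, ?_⟩
  rw [← hs.2.2.2]
  exact ⟨f, hk, rfl⟩

theorem rs_theta {θ : FF ≃* FF} (h : Pos θ) (f : FF) : rs (θ f) 0 = -rs f 0 * rs (θ x0) 0 := by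
  have h1 : rs (f * x0 ^ (rs f 0)) 0 = 0 := by
    rw [rs0_mul, rs0_zpow, rs_x0]; ring
  have h2 := rs_zero_pres h h1
  rw [map_mul, map_zpow, rs0_mul, rs0_zpow] at h2
  linarith

theorem rs_theta_x0 {θ : FF ≃* FF} (h : Pos θ) : rs (θ x0) 0 = -1 := by
  have h1 := rs_theta h (θ.symm x0)
  rw [θ.apply_symm_apply, rs_x0] at h1
  -- -1 = - a * b
  have h2 : rs (θ.symm x0) 0 * rs (θ x0) 0 = 1 := by linarith
  rcases Int.eq_one_or_neg_one_of_mul_eq_one' h2 with ⟨-, h3⟩ | ⟨-, h3⟩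
  · exfalso
    -- expansion near 0
    obtain ⟨ε, hε, hloc⟩ := rs_spec_fix (le0 (θ x0) (le_refl (0 : ℝ)))
    rw [h3] at hloc
    have hs := hf_spec h (k := 1 / 4) (by norm_num) (by norm_num)
    set κ := min (ε / 2) (hf θ h (1 / 4) / 2) with hκ
    have hκ0 : 0 < κ := lt_min (by linarith) (by linarith [hs.1])
    have hκ1 : κ < hf θ h (1 / 4) := by
      have := min_le_right (ε / 2) (hf θ h (1 / 4) / 2)
      have := hs.1
      rw [hκ]; linarith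
    have hκ2 : κ < 1 := hκ1.trans hs.2.1
    have hs2 := hf_spec (pos_symm h) hκ0 hκ2
    set k := hf θ.symm (pos_symm h) κ with hk
    have hkκ : hf θ h k = κ := hf_symm h hκ0 hκ2
    have hk4 : k < 1 / 4 := by
      by_contra hc
      rw [not_lt] at hc
      rcases hc.lt_or_eq with h5 | h5
      · have := hf_mono h (by norm_num) h5 hs2.2.1
        rw [hkκ] at this
        linarith
      · rw [← h5] at hkκ
        linarith
    have h6 := hf_equiv h x0 hs2.1 hs2.2.1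
    rw [hkκ, x0_half hs2.1.le (by linarith)] at h6
    have h7 := hf_mono h (k := k / 2) (k' := k) (by linarith [hs2.1]) (by linarith [hs2.1]) hs2.2.1
    rw [h6, hkκ, hloc κ hκ0.le (by
      have := min_le_left (ε / 2) (hf θ h (1 / 4) / 2)
      rw [hκ]; linarith)] at h7
    simp at h7
    linarith
  · exact h3

/-- orientation preserving automorphisms preserve the slope at `0` -/
theorem rs_pos {θ : FF ≃* FF} (h : Pos θ) (f : FF) : rs (θ f) 0 = rs f 0 := by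
  rw [rs_theta h, rs_theta_x0 h]; ring

theorem hf_tendsto {θ : FF ≃* FF} (h : Pos θ) : Tendsto (hf θ h) (𝓝[>] 0) (𝓝[>] 0) := by
  rw [(nhdsGT_basis (0 : ℝ)).tendsto_iff (nhdsGT_basis (0 : ℝ))]
  intro ε hε
  have hκ0 : 0 < min (ε / 2) (1 / 2) := lt_min (by linarith) (by norm_num)
  have hκ1 : min (ε / 2) (1 / 2) < 1 := (min_le_right _ _).trans_lt (by norm_num)
  have hs := hf_spec (pos_symm h) hκ0 hκ1
  refine ⟨_, hs.1, fun t ht => ?_⟩
  have ht1 : t < 1 := ht.2.trans hs.2.1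
  have hst := hf_spec h ht.1 ht1
  refine ⟨hst.1, ?_⟩
  have h1 := hf_mono h ht.1 ht.2 hs.2.1
  rw [hf_symm h hκ0 hκ1] at h1
  have := min_le_left (ε / 2) (1 / 2)
  linarith

theorem act_near (f : FF) : ∀ᶠ t in 𝓝[>] (0 : ℝ), f • t = (2 : ℝ) ^ (rs f 0) * t := by
  obtain ⟨ε, hε, hloc⟩ := rs_spec_fix (le0 f (le_refl (0 : ℝ)))
  have hmem : Set.Ioo 0 ε ∈ 𝓝[>] (0 : ℝ) := Ioo_mem_nhdsGT hε
  filter_upwards [hmem] with t ht
  rw [hloc t ht.1.le (by linarith [ht.2])]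
  ring

theorem hf_half {θ : FF ≃* FF} (h : Pos θ) :
    ∀ᶠ t in 𝓝[>] (0 : ℝ), hf θ h (t / 2) = hf θ h t / 2 := by
  have h1 := (hf_tendsto h).eventually (act_near (θ x0))
  have hmem : Set.Ioo (0 : ℝ) (1 / 2) ∈ 𝓝[>] (0 : ℝ) := Ioo_mem_nhdsGT (by norm_num)
  filter_upwards [h1, hmem] with t h2 ht
  rw [rs_theta_x0 h, zpow_neg_one, ← hf_equiv h x0 ht.1 (by linarith [ht.2]),
    x0_half ht.1.le ht.2.le] at h2
  rw [h2]; ring

theorem comm_le_zero {θ₁ θ₂ : FF ≃* FF} (h1 : Pos θ₁) (h2 : Pos θ₂) {f : FF}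
    (hc : ∀ g : FF, θ₁ (θ₂ g) = f * θ₂ (θ₁ g) * f⁻¹) : rs f 0 ≤ 0 := by
  refine germ_lemma (h1 := hf θ₁ h1) (h2 := hf θ₂ h2) (fun x a b => ?_) (fun x a b => ?_)
    (fun x y a b c => ?_) (fun x y a b c => ?_) (hf_tendsto h1) (hf_tendsto h2) (hf_half h1)
    (hf_half h2) ?_
  · have := hf_spec h1 a b; exact ⟨this.1, this.2.1⟩
  · have := hf_spec h2 a b; exact ⟨this.1, this.2.1⟩
  · rcases b.lt_or_eq with h | h
    · exact (hf_mono h1 a h c).le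
    · rw [h]
  · rcases b.lt_or_eq with h | h
    · exact (hf_mono h2 a h c).le
    · rw [h]
  · have hrel : ∀ k : ℝ, 0 < k → k < 1 →
        hf θ₁ h1 (hf θ₂ h2 k) = f • hf θ₂ h2 (hf θ₁ h1 k) := by
      intro k hk0 hk1
      have s1 := hf_spec h1 hk0 hk1
      have s21 := hf_spec h2 s1.1 s1.2.1
      have s2 := hf_spec h2 hk0 hk1
      have s12 := hf_spec h1 s2.1 s2.2.1
      refine L_inj s12.1 s12.2.1 ((smul_pos' f).2 s21.1) ((smul_lt_one' f).2 s21.2.1) ?_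
      rw [← (hf_comp h1 h2 hk0 hk1).1]
      ext φ
      rw [mem_conj, ← (hf_comp h2 h1 hk0 hk1).1]
      constructor
      · rintro ⟨g, hg, rfl⟩
        refine ⟨g, hg, ?_⟩
        change θ₂ (θ₁ g) = f⁻¹ * θ₁ (θ₂ g) * f
        rw [hc g]; group
      · rintro ⟨g, hg, hge⟩
        refine ⟨g, hg, ?_⟩
        change θ₂ (θ₁ g) = f⁻¹ * φ * f at hge
        change θ₁ (θ₂ g) = φ
        rw [hc g, hge]; group
    have hmem : Set.Ioo (0 : ℝ) 1 ∈ 𝓝[>] (0 : ℝ) := Ioo_mem_nhdsGT (by norm_num)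
    filter_upwards [((hf_tendsto h2).comp (hf_tendsto h1)).eventually (act_near f), hmem] with t a b
    rw [hrel t b.1 b.2]
    exact a

/-- commutators of orientation preserving automorphisms which are inner -/
theorem comm_eq_zero {θ₁ θ₂ : FF ≃* FF} (h1 : Pos θ₁) (h2 : Pos θ₂) {f : FF}
    (hc : ∀ g : FF, θ₁ (θ₂ g) = f * θ₂ (θ₁ g) * f⁻¹) : rs f 0 = 0 := by
  have a1 := comm_le_zero h1 h2 hc
  have a2 := comm_le_zero h2 h1 (f := f⁻¹) (fun g => by rw [hc g]; group)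
  rw [rs0_inv] at a2
  linarith

end Q187.FInt
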