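import Mathlib
import Pool.Agent.Q187.FInt.Auto

/-!
The flip automorphism and the final contradiction.
-/

set_option autoImplicit false
set_option linter.unusedVariables false

namespace Q187.FInt

open Pool.Agent.Helper283.PL Filter Topology
open scoped commutatorElement

/-- `x ↦ 1 - f (1 - x)` -/
def flp (f : Equiv.Perm ℝ) : Equiv.Perm ℝ where
  toFun x := 1 - f (1 - x)
  invFun x := 1 - f.symm (1 - x)
  left_inv x := by simp
  right_inv x := by simp

theorem flp_apply (f : Equiv.Perm ℝ) (x : ℝ) : flp f x = 1 - f (1 - x) := rfl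

theorem flp_LG {f : ℝ → ℝ} {x c : ℝ} {k : ℤ} (h : RG f (1 - x) k c) :
    LG (fun y => 1 - f (1 - y)) x k (1 - (2 : ℝ) ^ k - c) := by
  obtain ⟨hc, ε, hε, h⟩ := h
  refine ⟨(Dy.one.sub (Dy.zpow k)).sub hc, ε, hε, fun y h1 h2 => ?_⟩
  show 1 - f (1 - y) = _
  rw [h (1 - y) (by linarith) (by linarith)]
  ring

theorem flp_RG {f : ℝ → ℝ} {x c : ℝ} {k : ℤ} (h : LG f (1 - x) k c) :
    RG (fun y => 1 - f (1 - y)) x k (1 - (2 : ℝ) ^ k - c) := by
  obtain ⟨hc, ε, hε, h⟩ := h
  refine ⟨(Dy.one.sub (Dy.zpow k)).sub hc, ε, hε, fun y h1 h2 => ?_⟩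
  show 1 - f (1 - y) = _
  rw [h (1 - y) (by linarith) (by linarith)]
  ring

theorem Dy_flip {x : ℝ} : Dy (1 - x) → Dy x := by
  intro h
  have := Dy.one.sub h
  rwa [sub_sub_cancel] at this

theorem flp_mem {f : Equiv.Perm ℝ} (hf : f ∈ PLH) : flp f ∈ PLH := by
  refine ⟨fun x y hxy => ?_, fun x => ?_⟩
  · rw [flp_apply, flp_apply]
    have := hf.1 (show 1 - y < 1 - x by linarith)
    linarith
  · obtain ⟨⟨k, c, h1⟩, ⟨k', c', h2⟩, h3⟩ := hf.2 (1 - x)
    refine ⟨⟨_, _, flp_RG h2⟩, ⟨_, _, flp_LG h1⟩, fun hx => ?_⟩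
    obtain ⟨k, c, h4, h5⟩ := h3 (fun hc => hx (Dy_flip hc))
    exact ⟨_, _, flp_RG h5, flp_LG h4⟩

theorem flp_Sup {f : Equiv.Perm ℝ} (hf : f ∈ Sup 0 1) : flp f ∈ Sup 0 1 := by
  refine ⟨flp_mem hf.1, fun x hx => ?_⟩
  rw [flp_apply, hf.2 (1 - x) (by
    rcases hx with hx | hx
    · right; linarith
    · left; linarith)]
  ring

theorem flp_flp (f : Equiv.Perm ℝ) : flp (flp f) = f := by
  ext x; simp [flp_apply]

theorem flp_mul (f g : Equiv.Perm ℝ) : flp (f * g) = flp f * flp g := by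
  ext x; simp [flp_apply]

/-- the flip automorphism of `F` -/
def fl : FF ≃* FF where
  toFun f := ⟨flp f.1, flp_Sup f.2⟩
  invFun f := ⟨flp f.1, flp_Sup f.2⟩
  left_inv f := Subtype.ext (flp_flp f.1)
  right_inv f := Subtype.ext (flp_flp f.1)
  map_mul' f g := Subtype.ext (flp_mul f.1 g.1)

theorem fl_smul (f : FF) (x : ℝ) : fl f • x = 1 - f • (1 - x) := rfl

theorem fl_fl (f : FF) : fl (fl f) = f := fl.left_inv f

theorem fl_L (u v : ℝ) : (L u v).map fl.toMonoidHom = L (1 - v) (1 - u) := by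
  ext f
  constructor
  · rintro ⟨g, hg, rfl⟩ x hx
    change fl g • x = x
    rw [fl_smul, hg (1 - x) (by
      rcases hx with hx | hx
      · right; linarith
      · left; linarith)]
    ring
  · intro hf
    refine ⟨fl f, fun x hx => ?_, fl_fl f⟩
    rw [fl_smul, hf (1 - x) (by
      rcases hx with hx | hx
      · right; linarith
      · left; linarith)]
    ring

theorem map_trans (θ η : FF ≃* FF) (A : Subgroup FF) :
    A.map (θ.trans η).toMonoidHom = (A.map θ.toMonoidHom).map η.toMonoidHom := by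
  rw [Subgroup.map_map]; rfl

theorem neg_flip {θ : FF ≃* FF} (h : Neg θ) : Pos (θ.trans fl) := by
  intro k h0 h1
  obtain ⟨κ, a, b, c, d⟩ := h k h0 h1
  refine ⟨1 - κ, by linarith, by linarith, ?_, ?_⟩
  · rw [map_trans, c, fl_L, sub_self]
  · rw [map_trans, d, fl_L, sub_zero]

theorem pos_flip {θ : FF ≃* FF} (h : Pos θ) : Pos ((fl.trans θ).trans fl) := by
  intro k h0 h1
  obtain ⟨κ, a, b, c, d⟩ := h (1 - k) (by linarith) (by linarith)
  refine ⟨1 - κ, by linarith, by linarith, ?_, ?_⟩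
  · rw [map_trans, map_trans, fl_L, sub_zero, d, fl_L, sub_self]
  · rw [map_trans, map_trans, fl_L, sub_self, c, fl_L, sub_zero]

theorem neg_flip' {θ : FF ≃* FF} (h : Neg θ) : Pos (fl.trans θ) := by
  intro k h0 h1
  obtain ⟨κ, a, b, c, d⟩ := h (1 - k) (by linarith) (by linarith)
  refine ⟨κ, a, b, ?_, ?_⟩
  · rw [map_trans, fl_L, sub_zero, d]
  · rw [map_trans, fl_L, sub_self, c]

/-- slope at `1` is preserved -/
theorem bs_pos {θ : FF ≃* FF} (h : Pos θ) (f : FF) : rs (fl (θ f)) 0 = rs (fl f) 0 := by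
  have h1 := rs_pos (pos_flip h) (fl f)
  have e : ((fl.trans θ).trans fl) (fl f) = fl (θ f) := by
    change fl (θ (fl (fl f))) = _
    rw [fl_fl]
  rwa [e] at h1

theorem as_neg {θ : FF ≃* FF} (h : Neg θ) (f : FF) : rs (θ f) 0 = rs (fl f) 0 := by
  have h1 := rs_pos (neg_flip' h) (fl f)
  have e : (fl.trans θ) (fl f) = θ f := by
    change θ (fl (fl f)) = _
    rw [fl_fl]
  rwa [e] at h1

theorem bs_neg {θ : FF ≃* FF} (h : Neg θ) (f : FF) : rs (fl (θ f)) 0 = rs f 0 :=
  rs_pos (neg_flip h) f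

/-- sum of the logarithms of the slopes at `0` and `1` -/
noncomputable def chi (f : FF) : ℤ := rs f 0 + rs (fl f) 0

theorem chi_mul (f g : FF) : chi (f * g) = chi f + chi g := by
  unfold chi
  rw [rs0_mul, map_mul, rs0_mul]; ring

theorem chi_one : chi 1 = 0 := by
  unfold chi; rw [map_one, rs_one]; rfl

theorem chi_inv (f : FF) : chi f⁻¹ = -chi f := by
  have := chi_mul f⁻¹ f
  rw [inv_mul_cancel, chi_one] at this
  linarith

theorem chi_auto (θ : FF ≃* FF) (f : FF) : chi (θ f) = chi f := by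
  unfold chi
  rcases pos_or_neg θ with h | h
  · rw [rs_pos h, bs_pos h]
  · rw [as_neg h, bs_neg h]; ring

theorem chi_x0 : chi x0 = -1 := by
  unfold chi
  rw [rs_x0]
  have : rs (fl x0) 0 = 0 := by
    refine rs_of_id (ε := 1 / 4) (by norm_num) fun y h1 h2 => ?_
    rw [fl_smul, x0_id (by linarith)]; ring
  rw [this]; rfl

theorem comm_eq_zero' {θ₁ θ₂ : FF ≃* FF} (h1 : Pos θ₁) (h2 : Pos θ₂) {f : FF}
    (hc : ∀ g : FF, θ₁ (θ₂ g) = f * θ₂ (θ₁ g) * f⁻¹) : rs f 0 = 0 ∧ rs (fl f) 0 = 0 := by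
  refine ⟨comm_eq_zero h1 h2 hc, comm_eq_zero (pos_flip h1) (pos_flip h2) fun g => ?_⟩
  change fl (θ₁ (fl (fl (θ₂ (fl g))))) = fl f * fl (θ₂ (fl (fl (θ₁ (fl g))))) * (fl f)⁻¹
  rw [fl_fl, fl_fl, hc, map_mul, map_mul, map_inv]

universe u

/-- the automorphism of `F ≅ H'` given by conjugation -/
noncomputable def cj {H : Type u} [Group H] (φ : commutator H ≃* FF) (u : H) : FF ≃* FF :=
  (φ.symm.trans (MulAut.conjNormal u)).trans φ

theorem cj_apply {H : Type u} [Group H] (φ : commutator H ≃* FF) (u : H) (f : FF) :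
    cj φ u f = φ (MulAut.conjNormal u (φ.symm f)) := rfl

theorem cj_mul {H : Type u} [Group H] (φ : commutator H ≃* FF) (u v : H) (f : FF) :
    cj φ (u * v) f = cj φ u (cj φ v f) := by
  rw [cj_apply, cj_apply, cj_apply, φ.symm_apply_apply, map_mul, MulAut.mul_apply]

theorem cj_inner {H : Type u} [Group H] (φ : commutator H ≃* FF) (c : commutator H) (f : FF) :
    cj φ (c : H) f = φ c * f * (φ c)⁻¹ := by
  rw [cj_apply]
  have : MulAut.conjNormal (c : H) (φ.symm f) = c * φ.symm f * c⁻¹ := by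
    apply Subtype.ext
    simp [MulAut.conjNormal_apply]
  rw [this, map_mul, map_mul, map_inv, φ.apply_symm_apply]

/-- the commutator of two elements, as an element of `H'` -/
def cc {H : Type u} [Group H] (u v : H) : commutator H :=
  ⟨⁅u, v⁆, Subgroup.commutator_mem_commutator (Subgroup.mem_top u) (Subgroup.mem_top v)⟩

theorem cj_comm {H : Type u} [Group H] (φ : commutator H ≃* FF) (u v : H) (g : FF) :
    cj φ u (cj φ v g) = φ (cc u v) * cj φ v (cj φ u g) * (φ (cc u v))⁻¹ := by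
  rw [← cj_inner, ← cj_mul, ← cj_mul, ← cj_mul]
  have e : u * v = ((cc u v : commutator H) : H) * v * u := by
    change u * v = (u * v * u⁻¹ * v⁻¹) * v * u
    group
  rw [← e]

theorem cj_pos_mul {H : Type u} [Group H] (φ : commutator H ≃* FF) {u v : H}
    (hu : Neg (cj φ u)) (hv : Neg (cj φ v)) : Pos (cj φ (u * v)) := by
  have e : cj φ (u * v) = ((cj φ v).trans fl).trans (fl.trans (cj φ u)) := by
    apply MulEquiv.ext
    intro f
    rw [cj_mul]
    change _ = cj φ u (fl (fl (cj φ v f)))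
    rw [fl_fl]
  rw [e]
  exact pos_trans (neg_flip' hu) (neg_flip hv)

theorem cj_symm {H : Type u} [Group H] (φ : commutator H ≃* FF) (u : H) :
    (cj φ u).symm = cj φ u⁻¹ := by
  apply MulEquiv.ext
  intro f
  rw [MulEquiv.symm_apply_eq, ← cj_mul, mul_inv_cancel]
  rw [cj_apply, map_one]
  simp

theorem cj_neg_inv {H : Type u} [Group H] (φ : commutator H ≃* FF) {u : H}
    (hu : Neg (cj φ u)) : Neg (cj φ u⁻¹) := by
  rcases pos_or_neg (cj φ u⁻¹) with h | h
  · exfalso
    have := pos_symm h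
    rw [cj_symm, inv_inv] at this
    exact not_pos_neg this hu
  · exact h

theorem chi_np {H : Type u} [Group H] (φ : commutator H ≃* FF) {r k : H}
    (hr : Neg (cj φ r)) (hk : Pos (cj φ k)) : chi (φ (cc r k)) = 0 := by
  have h1 := (comm_eq_zero' (cj_pos_mul φ hr hr) hk (f := φ (cc (r * r) k))
    (fun g => cj_comm φ (r * r) k g)).1
  have h2 : φ (cc (r * r) k) = cj φ r (φ (cc r k)) * φ (cc r k) := by
    rw [cj_apply, φ.symm_apply_apply, ← map_mul]
    congr 1
    apply Subtype.ext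
    rw [Subgroup.coe_mul, MulAut.conjNormal_apply]
    change (r * r) * k * (r * r)⁻¹ * k⁻¹ = r * (r * k * r⁻¹ * k⁻¹) * r⁻¹ * (r * k * r⁻¹ * k⁻¹)
    group
  rw [h2, rs0_mul, as_neg hr] at h1
  unfold chi
  linarith

theorem chi_comm {H : Type u} [Group H] (φ : commutator H ≃* FF) (u v : H) :
    chi (φ (cc u v)) = 0 := by
  rcases pos_or_neg (cj φ u) with hu | hu <;> rcases pos_or_neg (cj φ v) with hv | hv
  · have := comm_eq_zero' hu hv (fun g => cj_comm φ u v g)
    unfold chi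
    rw [this.1, this.2]; rfl
  · have h1 := chi_np φ hv hu
    have h2 : cc u v = (cc v u)⁻¹ := by
      apply Subtype.ext
      change u * v * u⁻¹ * v⁻¹ = (v * u * v⁻¹ * u⁻¹)⁻¹
      group
    rw [h2, map_inv, chi_inv, h1]; rfl
  · exact chi_np φ hu hv
  · -- both reversing
    have hm : Pos (cj φ (u⁻¹ * v)) := cj_pos_mul φ (cj_neg_inv φ hu) hv
    have h1 := chi_np φ hu hm
    have h2 : φ (cc u v) = cj φ u (φ (cc u (u⁻¹ * v))) := by
      rw [cj_apply, φ.symm_apply_apply]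
      congr 1
      apply Subtype.ext
      rw [MulAut.conjNormal_apply]
      change u * v * u⁻¹ * v⁻¹ = u * (u * (u⁻¹ * v) * u⁻¹ * (u⁻¹ * v)⁻¹) * u⁻¹
      group
    rw [h2, chi_auto, h1]

/-- no group has commutator subgroup isomorphic to Thompson's group `F` -/
theorem not_integrable (H : Type u) [Group H] : IsEmpty (commutator H ≃* FF) := by
  refine ⟨fun φ => ?_⟩
  let ψ : commutator H →* Multiplicative ℤ :=
    { toFun := fun c => Multiplicative.ofAdd (chi (φ c))
      map_one' := by rw [map_one, chi_one]; rfl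
      map_mul' := fun a b => by rw [map_mul, chi_mul]; rfl }
  have hK : commutator H ≤ (ψ.ker).map (commutator H).subtype := by
    refine Subgroup.commutator_le.2 fun u _ v _ => ?_
    refine ⟨cc u v, ?_, rfl⟩
    change Multiplicative.ofAdd (chi (φ (cc u v))) = 1
    rw [chi_comm]; rfl
  have hx := (φ.symm x0).2
  obtain ⟨c, hc, hce⟩ := hK hx
  have hce' : c = φ.symm x0 := Subtype.ext hce
  have h1 : chi (φ c) = 0 := hc
  rw [hce', φ.apply_symm_apply, chi_x0] at h1
  norm_num at h1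

end Q187.FInt
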